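import Pool.Agent.Helper56.Cp.Defs

set_option autoImplicit false

open Set Filter Topology

namespace Pool.Agent.Helper56.Cp

universe u

variable {X : Type u} [TopologicalSpace X]

/-- characteristic functions of clopen sets -/
noncomputable def chi (E : Set X) (hE : IsClopen E) : CpD X :=
  ⟨E.boolIndicator, (continuous_boolIndicator_iff_isClopen E).2 hE⟩

theorem chi_true {E : Set X} {hE : IsClopen E} {y : X} : (chi E hE).1 y = true ↔ y ∈ E :=
  (E.mem_iff_boolIndicator y).symm

theorem chi_false {E : Set X} {hE : IsClopen E} {y : X} : (chi E hE).1 y = false ↔ y ∉ E :=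
  (E.notMem_iff_boolIndicator y).symm

/-- the zero function -/
def zro : CpD X := ⟨fun _ => false, continuous_const⟩

theorem isClopen_true (f : CpD X) : IsClopen {y | f.1 y = true} :=
  (isClopen_discrete {true}).preimage f.2

theorem isClopen_false (f : CpD X) : IsClopen {y | f.1 y = false} :=
  (isClopen_discrete {false}).preimage f.2

theorem tendsto_iff {ι : Type*} {l : Filter ι} {v : ι → CpD X} {f : CpD X} :
    Tendsto v l (𝓝 f) ↔ ∀ y, ∀ᶠ i in l, (v i).1 y = f.1 y := by
  have h1 : Tendsto v l (𝓝 f) ↔ Tendsto (fun i => (v i).1) l (𝓝 f.1) :=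
    Topology.IsInducing.subtypeVal.tendsto_nhds_iff
  rw [h1, tendsto_pi_nhds]
  apply forall_congr'
  intro y
  rw [nhds_discrete, tendsto_pure]

theorem mem_closure_iff_finset {A : Set (CpD X)} {f : CpD X} :
    f ∈ closure A ↔ ∀ F : Finset X, ∃ g ∈ A, ∀ y ∈ F, g.1 y = f.1 y := by
  constructor
  · intro hf F
    have hU : {g : CpD X | ∀ y ∈ F, g.1 y = f.1 y} ∈ 𝓝 f := by
      have : {g : CpD X | ∀ y ∈ F, g.1 y = f.1 y} =
          ⋂ y ∈ F, {g : CpD X | g.1 y = f.1 y} := by ext g; simp
      rw [this, Filter.biInter_finset_mem]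
      intro y _
      have hc : Continuous fun g : CpD X => g.1 y :=
        (continuous_apply y).comp continuous_subtype_val
      have h2 : (fun g : CpD X => g.1 y) ⁻¹' {f.1 y} ∈ 𝓝 f :=
        hc.continuousAt.preimage_mem_nhds (by rw [nhds_discrete]; exact mem_pure.2 rfl)
      exact h2
    obtain ⟨g, hg1, hg2⟩ := mem_closure_iff_nhds.1 hf _ hU
    exact ⟨g, hg2, hg1⟩
  · intro h
    rw [mem_closure_iff_nhds]
    intro U hU
    obtain ⟨V, hV, hVU⟩ := (mem_nhds_induced _ _ _).1 hU
    rw [nhds_pi, Filter.mem_pi] at hV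
    obtain ⟨I, hI, t, ht, hsub⟩ := hV
    obtain ⟨g, hgA, hg⟩ := h hI.toFinset
    refine ⟨g, hVU (hsub ?_), hgA⟩
    intro y hy
    rw [hg y (by simpa using hy)]
    exact mem_of_mem_nhds (ht y)

/-- Lindelof property for clopen covers -/
theorem lindelof [SequentialSpace (CpD X)] [Nonempty X] (P : Set X → Prop)
    (hP : ∀ x : X, ∃ E : Set X, IsClopen E ∧ x ∈ E ∧ P E) :
    ∃ E : ℕ → Set X, (∀ n, IsClopen (E n) ∧ P (E n)) ∧ ∀ x, ∃ n, x ∈ E n := by
  classical
  let A : Set (CpD X) := {g | ∃ 𝓔 : Set (Set X), 𝓔.Countable ∧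
    (∀ E ∈ 𝓔, IsClopen E ∧ P E) ∧ ∀ y, g.1 y = false → ∃ E ∈ 𝓔, y ∈ E}
  have hA : IsSeqClosed A := by
    intro v f hv hf
    choose 𝓔 h1 h2 h3 using hv
    refine ⟨⋃ n, 𝓔 n, countable_iUnion h1, ?_, ?_⟩
    · intro E hE
      obtain ⟨n, hn⟩ := mem_iUnion.1 hE
      exact h2 n E hn
    · intro y hy
      obtain ⟨n, hn⟩ := (tendsto_iff.1 hf y).exists
      obtain ⟨E, hE, hyE⟩ := h3 n y (hn.trans hy)
      exact ⟨E, mem_iUnion.2 ⟨n, hE⟩, hyE⟩
  choose E hE1 hE2 hE3 using hP
  have h0 : zro ∈ closure A := by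
    rw [mem_closure_iff_finset]
    intro F
    have hU : IsClopen (⋃ y ∈ F, E y) := by
      apply Set.Finite.isClopen_biUnion F.finite_toSet
      intro y _
      exact hE1 y
    refine ⟨chi (⋃ y ∈ F, E y)ᶜ hU.compl, ⟨E '' F, (F.finite_toSet.image E).countable, ?_, ?_⟩, ?_⟩
    · rintro _ ⟨y, -, rfl⟩
      exact ⟨hE1 y, hE3 y⟩
    · intro y hy
      rw [chi_false, notMem_compl_iff, mem_iUnion₂] at hy
      obtain ⟨z, hz, hyz⟩ := hy
      exact ⟨E z, ⟨z, hz, rfl⟩, hyz⟩
    · intro y hy
      rw [chi_false.2]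
      · rfl
      · rw [notMem_compl_iff, mem_iUnion₂]
        exact ⟨y, hy, hE2 y⟩
  rw [hA.isClosed.closure_eq] at h0
  obtain ⟨𝓔, h1, h2, h3⟩ := h0
  have hne : 𝓔.Nonempty := by
    obtain ⟨x⟩ := ‹Nonempty X›
    obtain ⟨E, hE, -⟩ := h3 x rfl
    exact ⟨E, hE⟩
  obtain ⟨e, he⟩ := h1.exists_eq_range hne
  refine ⟨e, fun n => h2 _ (by rw [he]; exact ⟨n, rfl⟩), fun x => ?_⟩
  obtain ⟨E, hE, hx⟩ := h3 x rfl
  rw [he] at hE
  obtain ⟨n, rfl⟩ := hE
  exact ⟨n, hx⟩

/-- the metric fan trick: local transversal convergence -/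
theorem transversal [SequentialSpace (CpD X)] {x₀ : X} {W : ℕ → Set X}
    (hW : ∀ k, IsClopen (W k)) (hanti : ∀ k, W (k + 1) ⊆ W k)
    (hx₀ : x₀ ∉ W 0) (hno : ¬ IsOpen (⋂ k, W k)) (H : ℕ → ℕ → CpD X)
    (hH : ∀ l, zro ∈ closure (range (H l))) :
    ∃ E : Set X, IsClopen E ∧ x₀ ∈ E ∧ ∃ l j : ℕ → ℕ, StrictMono l ∧
      ∀ y ∈ E, ∀ᶠ i in atTop, (H (l i) (j i)).1 y = false := by
  classical
  have hmono : ∀ {a b : ℕ}, a ≤ b → W b ⊆ W a := fun {a b} h =>
    antitone_nat_of_succ_le (fun k => hanti k) h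
  set Fs := ⋂ k, W k with hFs
  -- the elements of the fan
  let m : ℕ → ℕ → Set X := fun l r => W l \ W (l + r)
  have hm : ∀ l r, IsClopen (m l r) := fun l r => (hW l).diff (hW (l + r))
  let T : ℕ → ℕ → ℕ → Set X := fun l j r => m l r ∪ ({y | (H l j).1 y = true} \ W 0)
  have hT : ∀ l j r, IsClopen (T l j r) := fun l j r =>
    (hm l r).union ((isClopen_true (H l j)).diff (hW 0))
  -- values
  have hTW : ∀ l j r y, y ∈ W 0 → (y ∈ T l j r ↔ y ∈ m l r) := by
    intro l j r y hy
    constructor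
    · rintro (h | h)
      · exact h
      · exact absurd hy h.2
    · exact fun h => Or.inl h
  have hTW' : ∀ l j r y, y ∉ W 0 → (y ∈ T l j r ↔ (H l j).1 y = true) := by
    intro l j r y hy
    constructor
    · rintro (h | h)
      · exact absurd (hmono (Nat.zero_le l) h.1) hy
      · exact h.1
    · exact fun h => Or.inr ⟨h, hy⟩
  let A : Set (CpD X) := {g | g.1 x₀ = false ∧ ∃ l j r, j ≤ r ∧ (m l r).Nonempty ∧
    g = chi (T l j r) (hT l j r)}
  have h0A : zro ∉ A := by
    rintro ⟨-, l, j, r, -, ⟨y, hy⟩, hg⟩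
    have h1 : (chi (T l j r) (hT l j r)).1 y = true := chi_true.2 (Or.inl hy)
    rw [← hg] at h1
    exact absurd h1 (by simp [zro])
  have h0cl : zro ∈ closure A := by
    rw [mem_closure_iff_finset]
    intro F
    -- choose the level
    have hlev : ∀ y : X, ∃ l, y ∈ Fs ∨ y ∉ W l := by
      intro y
      by_cases hy : y ∈ Fs
      · exact ⟨0, Or.inl hy⟩
      · rw [hFs, mem_iInter, not_forall] at hy
        obtain ⟨l, hl⟩ := hy
        exact ⟨l, Or.inr hl⟩
    choose lev hlev using hlev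
    obtain ⟨l, hl⟩ : ∃ l, ∀ y ∈ F, lev y ≤ l := by
      exact ⟨F.sup lev, fun y hy => Finset.le_sup hy⟩
    have hml : ∀ r, ∀ y ∈ F, y ∉ m l r := by
      intro r y hy hmy
      rcases hlev y with h | h
      · exact hmy.2 (mem_iInter.1 h (l + r))
      · exact h (hmono (hl y hy) hmy.1)
    -- `W l` is not equal to the intersection
    obtain ⟨r₀, hr₀⟩ : ∃ r₀, ∀ r ≥ r₀, (m l r).Nonempty := by
      have hne : ∃ k, ¬ W l ⊆ W k := by
        by_contra hcon
        push Not at hcon
        apply hno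
        have : Fs = W l := by
          apply Subset.antisymm
          · exact iInter_subset _ l
          · exact subset_iInter hcon
        rw [this]
        exact (hW l).isOpen
      obtain ⟨k, hk⟩ := hne
      refine ⟨k, fun j hj => ?_⟩
      obtain ⟨y, hy1, hy2⟩ := not_subset.1 hk
      exact ⟨y, hy1, fun h => hy2 (hmono (by omega) h)⟩
    obtain ⟨g, ⟨j, rfl⟩, hg⟩ := mem_closure_iff_finset.1 (hH l) (insert x₀ F)
    refine ⟨chi (T l j (max j r₀)) (hT l j (max j r₀)), ⟨?_, l, j, max j r₀, le_max_left _ _,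
      hr₀ _ (le_max_right _ _), rfl⟩, ?_⟩
    · rw [chi_false, hTW' _ _ _ _ hx₀, hg x₀ (Finset.mem_insert_self _ _)]
      simp [zro]
    · intro y hy
      show _ = false
      rw [chi_false]
      rintro (h | h)
      · exact hml _ y hy h
      · have := hg y (Finset.mem_insert_of_mem hy)
        rw [h.1] at this
        simp [zro] at this
  -- `A` is not sequentially closed
  have hns : ¬ IsSeqClosed A := by
    intro h
    rw [h.isClosed.closure_eq] at h0cl
    exact h0A h0cl
  unfold IsSeqClosed at hns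
  push Not at hns
  obtain ⟨a, z, ha, haz, hz⟩ := hns
  rw [tendsto_iff] at haz
  have ha1 : ∀ i, (a i).1 x₀ = false := fun i => (ha i).1
  choose l j r hjr hne hal using fun i => (ha i).2
  have hzx : z.1 x₀ = false := by
    obtain ⟨i, hi⟩ := (haz x₀).exists
    rw [← hi, ha1]
  -- the levels tend to infinity
  have hl : Tendsto l atTop atTop := by
    rw [tendsto_atTop]
    intro N
    by_contra hcon
    have hfr : ∃ᶠ i in atTop, l i < N := by
      rw [Filter.Frequently]
      intro h
      apply hcon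
      filter_upwards [h] with i hi
      omega
    obtain ⟨L, hL⟩ : ∃ L, ∃ᶠ i in atTop, l i = L := by
      by_contra hno'
      push Not at hno'
      apply hfr
      have : ∀ᶠ i in atTop, ∀ L ∈ Finset.range N, l i ≠ L := by
        rw [Filter.eventually_all_finset]
        intro L _
        exact hno' L
      filter_upwards [this] with i hi hlt
      exact hi (l i) (Finset.mem_range.2 hlt) rfl
    by_cases hR : ∃ R, ∃ᶠ i in atTop, l i = L ∧ r i < R
    · obtain ⟨R, hR⟩ := hR
      apply hz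
      obtain ⟨jr, hjr'⟩ : ∃ jr : ℕ × ℕ, ∃ᶠ i in atTop, l i = L ∧ (j i, r i) = jr := by
        by_contra hno'
        push Not at hno'
        apply hR
        have : ∀ᶠ i in atTop, ∀ p ∈ Finset.range R ×ˢ Finset.range R,
            ¬ (l i = L ∧ (j i, r i) = p) := by
          rw [Filter.eventually_all_finset]
          intro p _
          have := hno' p
          filter_upwards [this] with i hi h
          exact hi h.1 h.2
        filter_upwards [this] with i hi hlt
        refine hi (j i, r i) ?_ ⟨hlt.1, rfl⟩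
        rw [Finset.mem_product, Finset.mem_range, Finset.mem_range]
        exact ⟨lt_of_le_of_lt (hjr i) hlt.2, hlt.2⟩
      have hzeq : z = chi (T L jr.1 jr.2) (hT L jr.1 jr.2) := by
        apply Subtype.ext
        funext y
        obtain ⟨i, hi, h1, h2⟩ := ((haz y).and_frequently hjr').exists
        have h3 := hal i
        rw [← hi, h3]
        subst h1
        rw [← h2]
      obtain ⟨i, h1, h2⟩ := hjr'.exists
      refine ⟨hzx, L, jr.1, jr.2, ?_, ?_, hzeq⟩
      · rw [← h2]; exact hjr i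
      · have := hne i
        rw [h1] at this
        rw [← h2]; exact this
    · push Not at hR
      apply hno
      have hF : Fs = W L ∩ {y | z.1 y = false} := by
        ext y
        constructor
        · intro hy
          refine ⟨mem_iInter.1 hy L, ?_⟩
          obtain ⟨i, hi, h1⟩ := ((haz y).and_frequently hL).exists
          show z.1 y = false
          rw [← hi, hal i, chi_false, hTW _ _ _ _ (mem_iInter.1 hy 0)]
          exact fun h => h.2 (mem_iInter.1 hy _)
        · rintro ⟨hyL, hyz⟩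
          by_contra hyF
          rw [hFs, mem_iInter, not_forall] at hyF
          obtain ⟨k, hk⟩ := hyF
          have h2 := hR k
          obtain ⟨i, ⟨hi, h4⟩, h1⟩ := (((haz y).and h2).and_frequently hL).exists
          have h5 : k ≤ r i := h4 h1
          have hyz' : z.1 y = false := hyz
          rw [← hi, hal i, chi_false, hTW _ _ _ _ (hmono (Nat.zero_le L) hyL)] at hyz'
          apply hyz'
          refine ⟨by rw [h1]; exact hyL, fun h => hk (hmono ?_ h)⟩
          omega
      rw [hF]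
      exact (hW L).isOpen.inter (isClopen_false z).isOpen
  obtain ⟨φ, hφ, hlφ⟩ := Filter.strictMono_subseq_of_tendsto_atTop hl
  refine ⟨(W 0)ᶜ ∩ {y | z.1 y = false}, (hW 0).compl.inter (isClopen_false z), ⟨hx₀, hzx⟩,
    l ∘ φ, j ∘ φ, hlφ, ?_⟩
  rintro y ⟨hy1, hy2⟩
  have h1 := hφ.tendsto_atTop.eventually (haz y)
  filter_upwards [h1] with i hi
  have h2 : (a (φ i)).1 y = false := hi.trans hy2
  rw [hal, chi_false, hTW' _ _ _ _ hy1] at h2
  simpa using h2

end Pool.Agent.Helper56.Cp
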