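import Pool.Agent.Helper56.Cp.KSpace

set_option autoImplicit false

open Set Filter Topology
open scoped Cardinal

namespace Pool.Agent.Helper56.Cp

universe u

variable {κ : Cardinal.{u}} {I : Type u}

/-- The group of finitely supported functions from `I` to `ZMod 2`. -/
def BoxGroup (_ : Cardinal.{u}) (I : Type u) : Type u := I →₀ ZMod 2

noncomputable instance : AddCommGroup (BoxGroup κ I) :=
  inferInstanceAs (AddCommGroup (I →₀ ZMod 2))

/-- the value of an element at an index -/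
def BoxGroup.val (x : BoxGroup κ I) (i : I) : ZMod 2 := (show I →₀ ZMod 2 from x) i

theorem BoxGroup.ext {x y : BoxGroup κ I} (h : ∀ i, x.val i = y.val i) : x = y :=
  Finsupp.ext h

theorem BoxGroup.val_add (x y : BoxGroup κ I) (i : I) : (x + y).val i = x.val i + y.val i := rfl

theorem BoxGroup.val_neg (x : BoxGroup κ I) (i : I) : (-x).val i = -x.val i := rfl

/-- elements which agree with `x` on `S` -/
def nb (x : BoxGroup κ I) (S : Set I) : Set (BoxGroup κ I) := {y | ∀ i ∈ S, y.val i = x.val i}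

theorem union_le (hκ : ℵ₀ ≤ κ) {S T : Set I} (hS : #S ≤ κ) (hT : #T ≤ κ) :
    #(S ∪ T : Set I) ≤ κ :=
  (Cardinal.mk_union_le S T).trans ((add_le_add hS hT).trans (Cardinal.add_eq_self hκ).le)

/-- the topology: a set is open if with every point it contains all points agreeing with it on a
set of at most `κ` indices -/
@[instance_reducible]
def boxTop [hκ : Fact (ℵ₀ ≤ κ)] : TopologicalSpace (BoxGroup κ I) where
  IsOpen U := ∀ x ∈ U, ∃ S : Set I, #S ≤ κ ∧ nb x S ⊆ U
  isOpen_univ := fun x _ => ⟨∅, by simp, subset_univ _⟩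
  isOpen_inter := by
    rintro U V hU hV x ⟨hxU, hxV⟩
    obtain ⟨S, hS, hSU⟩ := hU x hxU
    obtain ⟨T, hT, hTV⟩ := hV x hxV
    refine ⟨S ∪ T, union_le hκ.out hS hT, fun y hy => ⟨hSU ?_, hTV ?_⟩⟩
    · exact fun i hi => hy i (Or.inl hi)
    · exact fun i hi => hy i (Or.inr hi)
  isOpen_sUnion := by
    intro 𝒰 h𝒰 x hx
    obtain ⟨U, hU, hxU⟩ := hx
    obtain ⟨S, hS, hSU⟩ := h𝒰 U hU x hxU
    exact ⟨S, hS, hSU.trans (subset_sUnion_of_mem hU)⟩

attribute [local instance] boxTop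

variable [hκ : Fact (ℵ₀ ≤ κ)]

theorem isOpen_box {U : Set (BoxGroup κ I)} :
    IsOpen U ↔ ∀ x ∈ U, ∃ S : Set I, #S ≤ κ ∧ nb x S ⊆ U := Iff.rfl

theorem isOpen_nb (x : BoxGroup κ I) {S : Set I} (hS : #S ≤ κ) : IsOpen (nb x S) := by
  rw [isOpen_box]
  intro y hy
  exact ⟨S, hS, fun z hz i hi => (hz i hi).trans (hy i hi)⟩

theorem mem_nb (x : BoxGroup κ I) (S : Set I) : x ∈ nb x S := fun _ _ => rfl

theorem isClopen_nb (x : BoxGroup κ I) {S : Set I} (hS : #S ≤ κ) : IsClopen (nb x S) := by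
  refine ⟨?_, isOpen_nb x hS⟩
  rw [← isOpen_compl_iff, isOpen_box]
  intro y hy
  refine ⟨S, hS, fun z hz hzx => hy fun i hi => ?_⟩
  rw [← hz i hi, hzx i hi]

theorem mem_nhds_box {x : BoxGroup κ I} {U : Set (BoxGroup κ I)} :
    U ∈ 𝓝 x ↔ ∃ S : Set I, #S ≤ κ ∧ nb x S ⊆ U := by
  constructor
  · intro h
    obtain ⟨V, hVU, hV, hx⟩ := mem_nhds_iff.1 h
    obtain ⟨S, hS, hSV⟩ := isOpen_box.1 hV x hx
    exact ⟨S, hS, hSV.trans hVU⟩
  · rintro ⟨S, hS, hSU⟩
    exact mem_nhds_iff.2 ⟨_, hSU, isOpen_nb x hS, mem_nb x S⟩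

theorem single_le {i : I} : #({i} : Set I) ≤ κ := by
  rw [Cardinal.mk_singleton]
  exact (Cardinal.one_lt_aleph0.le).trans hκ.out

theorem zeroDim_box : ZeroDim (BoxGroup κ I) := by
  constructor
  · refine ⟨fun x y hxy => ?_⟩
    have h1 : ∃ i, x.val i ≠ y.val i := by
      by_contra h
      push Not at h
      exact hxy (BoxGroup.ext h)
    obtain ⟨i, hi⟩ := h1
    refine ⟨nb x {i}, nb y {i}, isOpen_nb x single_le, isOpen_nb y single_le, mem_nb _ _,
      mem_nb _ _, ?_⟩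
    rw [Set.disjoint_left]
    intro z hz hz'
    exact hi ((hz i rfl).symm.trans (hz' i rfl))
  · apply TopologicalSpace.isTopologicalBasis_of_isOpen_of_nhds
    · intro s hs
      exact hs.isOpen
    · intro x U hx hU
      obtain ⟨S, hS, hSU⟩ := isOpen_box.1 hU x hx
      exact ⟨nb x S, isClopen_nb x hS, mem_nb x S, hSU⟩

theorem topologicalGroup_box : IsTopologicalAddGroup (BoxGroup κ I) where
  continuous_add := by
    rw [continuous_iff_continuousAt]
    rintro ⟨x, y⟩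
    intro U hU
    obtain ⟨S, hS, hSU⟩ := mem_nhds_box.1 hU
    have h1 : nb x S ×ˢ nb y S ∈ 𝓝 (x, y) :=
      prod_mem_nhds (mem_nhds_box.2 ⟨S, hS, Subset.rfl⟩) (mem_nhds_box.2 ⟨S, hS, Subset.rfl⟩)
    rw [Filter.mem_map]
    refine Filter.mem_of_superset h1 fun p hp => hSU fun i hi => ?_
    show (p.1 + p.2).val i = (x + y).val i
    rw [BoxGroup.val_add, BoxGroup.val_add, hp.1 i hi, hp.2 i hi]
  continuous_neg := by
    rw [continuous_iff_continuousAt]
    intro x U hU
    obtain ⟨S, hS, hSU⟩ := mem_nhds_box.1 hU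
    have h1 : nb x S ∈ 𝓝 x := mem_nhds_box.2 ⟨S, hS, Subset.rfl⟩
    rw [Filter.mem_map]
    refine Filter.mem_of_superset h1 fun p hp => hSU fun i hi => ?_
    show (-p).val i = (-x).val i
    rw [BoxGroup.val_neg, BoxGroup.val_neg, hp i hi]

theorem add_self_box (x : BoxGroup κ I) : x + x = 0 := by
  apply BoxGroup.ext
  intro i
  rw [BoxGroup.val_add]
  have : ∀ a : ZMod 2, a + a = 0 := by decide
  rw [this]
  rfl

theorem crowded_box (hI : κ < #I) (x : BoxGroup κ I) : ¬ IsOpen ({x} : Set (BoxGroup κ I)) := by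
  intro h
  obtain ⟨S, hS, hSx⟩ := isOpen_box.1 h x rfl
  have h1 : ∃ i, i ∉ S := by
    by_contra h2
    push Not at h2
    have h3 : S = univ := eq_univ_of_forall h2
    rw [h3, Cardinal.mk_univ] at hS
    exact absurd hI (not_lt.2 hS)
  obtain ⟨i, hi⟩ := h1
  classical
  let d : BoxGroup κ I := (Finsupp.single i 1 : I →₀ ZMod 2)
  have hd : ∀ j, d.val j = if i = j then 1 else 0 := fun j => Finsupp.single_apply
  have h4 : x + d ∈ nb x S := by
    intro j hj
    have hij : i ≠ j := fun e => hi (e ▸ hj)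
    rw [BoxGroup.val_add, hd, if_neg hij, add_zero]
  have h5 : x + d = x := hSx h4
  have h6 : (x + d).val i = x.val i := by rw [h5]
  rw [BoxGroup.val_add, hd, if_pos rfl] at h6
  have h7 : ∀ a : ZMod 2, a + 1 ≠ a := by decide
  exact h7 _ h6

theorem uncountable_box (hI : κ < #I) : Uncountable (BoxGroup κ I) := by
  have h1 : Uncountable I := by
    rw [← Cardinal.aleph0_lt_mk_iff]
    exact hκ.out.trans_lt hI
  have h2 : Function.Injective fun i : I => (Finsupp.single i 1 : I →₀ ZMod 2) :=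
    Finsupp.single_left_injective one_ne_zero
  exact Function.Injective.uncountable (α := I) (β := I →₀ ZMod 2) h2

theorem iUnion_le {ι : Type u} (hι : #ι ≤ κ) (S : ι → Set I) (hS : ∀ i, #(S i) ≤ κ) :
    #(⋃ i, S i : Set I) ≤ κ := by
  calc #(⋃ i, S i : Set I) ≤ Cardinal.sum fun i => #(S i) := Cardinal.mk_iUnion_le_sum_mk
    _ ≤ #ι * ⨆ i, #(S i) := Cardinal.sum_le_mk_mul_iSup _
    _ ≤ κ * κ := by
        gcongr
        exact ciSup_le' hS
    _ = κ := Cardinal.mul_eq_self hκ.out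

theorem pspace_box : IsPSpace κ (BoxGroup κ I) := by
  intro 𝒰 h𝒰 hop
  rw [isOpen_box]
  intro x hx
  have h1 : ∀ U : 𝒰, ∃ S : Set I, #S ≤ κ ∧ nb x S ⊆ U.1 := fun U =>
    isOpen_box.1 (hop U.1 U.2) x (hx U.1 U.2)
  choose S hS hSU using h1
  refine ⟨⋃ U : 𝒰, S U, iUnion_le h𝒰 S hS, ?_⟩
  intro y hy U hU
  exact hSU ⟨U, hU⟩ fun i hi => hy i (mem_iUnion.2 ⟨⟨U, hU⟩, hi⟩)

/-- tuples whose members are supported in `T` -/
def suppIn (κ : Cardinal.{u}) (n : ℕ) (T : Set I) : Set (Fin n → BoxGroup κ I) :=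
  {x | ∀ j i, i ∉ T → (x j).val i = 0}

theorem mk_suppIn_le (n : ℕ) {T : Set I} (hT : #T ≤ κ) : #(suppIn κ n T) ≤ κ := by
  classical
  have hfin : ∀ x : BoxGroup κ I, {t : T | x.val t ≠ 0}.Finite := by
    intro x
    have h1 : {i : I | x.val i ≠ 0}.Finite := by
      refine Set.Finite.subset (Finset.finite_toSet (show I →₀ ZMod 2 from x).support) ?_
      intro i hi
      exact Finsupp.mem_support_iff.2 hi
    exact h1.preimage (Subtype.val_injective.injOn)
  let f : suppIn κ n T → Fin n → Finset T := fun x j => (hfin (x.1 j)).toFinset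
  have hf : Function.Injective f := by
    intro x y hxy
    apply Subtype.ext
    funext j
    apply BoxGroup.ext
    intro i
    by_cases hi : i ∈ T
    · have h1 : f x j = f y j := congrFun hxy j
      have h2 : (⟨i, hi⟩ : T) ∈ f x j ↔ (⟨i, hi⟩ : T) ∈ f y j := by rw [h1]
      simp only [f, Set.Finite.mem_toFinset, Set.mem_ofPred_eq] at h2
      have h3 : ∀ a b : ZMod 2, (a ≠ 0 ↔ b ≠ 0) → a = b := by decide
      exact h3 _ _ h2
    · rw [x.2 j i hi, y.2 j i hi]
  have h1 : #(Finset T) ≤ κ := by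
    have h2 : #(Finset T) ≤ #(List T) :=
      Cardinal.mk_le_of_surjective (f := fun l : List T => l.toFinset) List.toFinset_surjective
    exact h2.trans ((Cardinal.mk_list_le_max T).trans (max_le hκ.out hT))
  have h3 : #(Fin n → Finset T) ≤ κ := by
    have h4 : #(Fin n → Finset T) ≤ #(List (Finset T)) :=
      Cardinal.mk_le_of_injective (f := fun g : Fin n → Finset T => List.ofFn g)
        List.ofFn_injective
    exact h4.trans ((Cardinal.mk_list_le_max _).trans (max_le hκ.out h1))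
  exact (Cardinal.mk_le_of_injective hf).trans h3

theorem iUnion_le_small {ι : Type} [Countable ι] (S : ι → Set I) (hS : ∀ i, #(S i) ≤ κ) :
    #(⋃ i, S i : Set I) ≤ κ := by
  have h1 : (⋃ i, S i) = ⋃ i : ULift.{u} ι, S i.down := by
    ext x
    simp only [mem_iUnion]
    constructor
    · rintro ⟨i, hi⟩
      exact ⟨⟨i⟩, hi⟩
    · rintro ⟨i, hi⟩
      exact ⟨i.down, hi⟩
  rw [h1]
  exact iUnion_le ((Cardinal.mk_le_aleph0).trans hκ.out) _ fun i => hS i.down

theorem lindelof_pow_box (n : ℕ) : LindelofDegreeLE κ (Fin n → BoxGroup κ I) := by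
  classical
  intro 𝒰 hop hcov
  have h1 : ∀ x : Fin n → BoxGroup κ I, ∃ U ∈ 𝒰, ∃ S : Set I, #S ≤ κ ∧
      {y : Fin n → BoxGroup κ I | ∀ j, y j ∈ nb (x j) S} ⊆ U := by
    intro x
    have hx : x ∈ ⋃₀ 𝒰 := by rw [hcov]; trivial
    obtain ⟨U, hU, hxU⟩ := hx
    obtain ⟨u, hu, huU⟩ := isOpen_pi_iff'.1 (hop U hU) x hxU
    have h2 : ∀ j, ∃ S : Set I, #S ≤ κ ∧ nb (x j) S ⊆ u j := fun j =>
      isOpen_box.1 (hu j).1 (x j) (hu j).2
    choose S hS hSu using h2
    refine ⟨U, hU, ⋃ j, S j, iUnion_le_small S hS, ?_⟩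
    intro y hy
    apply huU
    intro j _
    exact hSu j fun i hi => hy j i (mem_iUnion.2 ⟨j, hi⟩)
  choose U hU S hS hSU using h1
  let T : ℕ → Set I := fun k => Nat.rec ∅ (fun _ A => A ∪ ⋃ x : suppIn κ n A, S x.1) k
  have hT0 : T 0 = ∅ := rfl
  have hTs : ∀ k, T (k + 1) = T k ∪ ⋃ x : suppIn κ n (T k), S x.1 := fun k => rfl
  have hTc : ∀ k : ℕ, #(↥(T k)) ≤ κ := by
    intro k
    induction k with
    | zero => rw [hT0]; simp
    | succ k ih =>
      rw [hTs]
      exact union_le hκ.out ih (iUnion_le (mk_suppIn_le n ih) _ fun x => hS x.1)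
  have hmono : Monotone T := monotone_nat_of_le_succ fun k => by
    rw [hTs]
    exact subset_union_left
  have hW : #(⋃ k, T k : Set I) ≤ κ := iUnion_le_small T hTc
  refine ⟨U '' suppIn κ n (⋃ k, T k), ?_, Cardinal.mk_image_le.trans (mk_suppIn_le n hW), ?_⟩
  · rintro _ ⟨x, -, rfl⟩
    exact hU x
  · apply eq_univ_of_forall
    intro y
    let x : Fin n → BoxGroup κ I := fun j =>
      Finsupp.filter (fun i => i ∈ ⋃ k, T k) (show I →₀ ZMod 2 from y j)
    have hx1 : ∀ j i, i ∈ (⋃ k, T k) → (x j).val i = (y j).val i := fun j i hi =>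
      Finsupp.filter_apply_pos _ _ hi
    have hx2 : ∀ j i, i ∉ (⋃ k, T k) → (x j).val i = 0 := fun j i hi =>
      Finsupp.filter_apply_neg _ _ hi
    have hxW : x ∈ suppIn κ n (⋃ k, T k) := hx2
    let r : I → ℕ := fun i => sInf {k | i ∈ T k}
    have hr : ∀ i ∈ ⋃ k, T k, i ∈ T (r i) := by
      intro i hi
      obtain ⟨k, hk⟩ := mem_iUnion.1 hi
      exact Nat.sInf_mem (s := {k | i ∈ T k}) ⟨k, hk⟩
    let K : ℕ := Finset.univ.sup fun j => (show I →₀ ZMod 2 from x j).support.sup r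
    have hK : x ∈ suppIn κ n (T K) := by
      intro j i hi
      by_contra hne
      have hiW : i ∈ ⋃ k, T k := by
        by_contra h
        exact hne (hx2 j i h)
      have hri := hr i hiW
      have hle : r i ≤ K := by
        have h5 : i ∈ (show I →₀ ZMod 2 from x j).support := Finsupp.mem_support_iff.2 hne
        have h6 : r i ≤ (show I →₀ ZMod 2 from x j).support.sup r := Finset.le_sup h5
        have h7 : (show I →₀ ZMod 2 from x j).support.sup r ≤ K :=
          Finset.le_sup (f := fun j => (show I →₀ ZMod 2 from x j).support.sup r)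
            (Finset.mem_univ j)
        exact h6.trans h7
      exact hi (hmono hle hri)
    have hSW : S x ⊆ ⋃ k, T k := by
      intro i hi
      refine mem_iUnion.2 ⟨K + 1, ?_⟩
      rw [hTs]
      exact Or.inr (mem_iUnion.2 ⟨⟨x, hK⟩, hi⟩)
    refine ⟨U x, mem_image_of_mem U hxW, hSU x ?_⟩
    intro j i hi
    exact (hx1 j i (hSW hi)).symm

end Pool.Agent.Helper56.Cp
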