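import Mathlib

set_option autoImplicit false

open Set Filter Topology

namespace Pool.Agent.Helper56.Cp

universe u

/-- The space `C_p(X, 𝔻)` of continuous maps from `X` to the discrete two point space `Bool`,
with the topology of pointwise convergence (the subspace topology of the product). -/
abbrev CpD (X : Type u) [TopologicalSpace X] : Type u := {f : X → Bool // Continuous f}

/-- Zero-dimensional (Tychonoff) spaces: Hausdorff with a base of clopen sets. -/
def ZeroDim (X : Type u) [TopologicalSpace X] : Prop :=
  T2Space X ∧ TopologicalSpace.IsTopologicalBasis {s : Set X | IsClopen s}

end Pool.Agent.Helper56.Cp
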