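import Pool.Agent.Helper56.Cp.Game

set_option autoImplicit false

open Set Filter Topology

namespace Pool.Agent.Helper56.Cp

universe u

variable {X : Type u} [TopologicalSpace X]

/-- subfans: subsets all of whose columns are infinite -/
def Full (S : Set (ℕ × ℕ)) : Prop := ∀ n N, ∃ j ≥ N, (n, j) ∈ S

theorem key [SequentialSpace (CpD X)] (hF : HasFans X) (v : ℕ → ℕ → CpD X)
    (hv : ∀ n y, ∀ᶠ j in atTop, (v n j).1 y = false) (S : Set (ℕ × ℕ)) (hS : Full S) (x₀ : X) :
    ∃ E : Set X, IsClopen E ∧ x₀ ∈ E ∧ ∃ S' ⊆ S, Full S' ∧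
      ∀ y ∈ E, {s ∈ S' | (v s.1 s.2).1 y = true}.Finite := by
  classical
  obtain ⟨dec, hdec⟩ := exists_surjective_nat (List ℕ)
  let valid : ℕ → List ℕ → Prop := fun l τ => ∀ n < l, l ≤ τ.getD n 0 ∧ (n, τ.getD n 0) ∈ S
  let U : ℕ → List ℕ → Set X := fun l τ => ⋃ n ∈ Finset.range l, {y | (v n (τ.getD n 0)).1 y = true}
  have hU : ∀ l τ, IsClopen (U l τ) := fun l τ =>
    Set.Finite.isClopen_biUnion (Finset.finite_toSet _) fun n _ => isClopen_true _
  have hUmem : ∀ l τ y, y ∈ U l τ ↔ ∃ n < l, (v n (τ.getD n 0)).1 y = true := by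
    intro l τ y
    simp only [U, mem_iUnion, Finset.mem_range, exists_prop, mem_ofPred_eq]
  let H : ℕ → ℕ → CpD X := fun l j =>
    if valid l (dec j) then chi (U l (dec j)) (hU l (dec j)) else chi univ isClopen_univ
  have hH : ∀ l, zro ∈ closure (range (H l)) := by
    intro l
    rw [mem_closure_iff_finset]
    intro F
    have hex : ∀ n, ∃ t, l ≤ t ∧ (n, t) ∈ S ∧ ∀ y ∈ F, (v n t).1 y = false := by
      intro n
      have h1 : ∀ᶠ j in atTop, ∀ y ∈ F, (v n j).1 y = false := by
        rw [Filter.eventually_all_finset]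
        intro y _
        exact hv n y
      obtain ⟨N, hN⟩ := eventually_atTop.1 h1
      obtain ⟨j, hj, hjS⟩ := hS n (max N l)
      exact ⟨j, (le_max_right _ _).trans hj, hjS, hN j ((le_max_left _ _).trans hj)⟩
    choose t ht1 ht2 ht3 using hex
    obtain ⟨j, hj⟩ := hdec ((List.range l).map t)
    have hget : ∀ n < l, (dec j).getD n 0 = t n := by
      intro n hn
      rw [hj, List.getD_eq_getElem?_getD, List.getElem?_map, List.getElem?_range hn]
      rfl
    have hval : valid l (dec j) := by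
      intro n hn
      rw [hget n hn]
      exact ⟨ht1 n, ht2 n⟩
    refine ⟨H l j, ⟨j, rfl⟩, fun y hy => ?_⟩
    have h1 : H l j = chi (U l (dec j)) (hU l (dec j)) := if_pos hval
    rw [h1]
    show _ = false
    rw [chi_false, hUmem]
    rintro ⟨n, hn, h2⟩
    rw [hget n hn, ht3 n y hy] at h2
    exact absurd h2 (by simp)
  obtain ⟨W, hW1, hW2, hW3, hW4⟩ := hF x₀
  obtain ⟨E, hE1, hE2, l, j, hl, hlj⟩ := transversal hW1 hW2 hW3 hW4 H hH
  refine ⟨E, hE1, hE2, {s | ∃ i, valid (l i) (dec (j i)) ∧ s.1 < l i ∧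
    s.2 = (dec (j i)).getD s.1 0}, ?_, ?_, ?_⟩
  · rintro ⟨n, t⟩ ⟨i, hi, h1, h2⟩
    have h3 : t = (dec (j i)).getD n 0 := h2
    rw [h3]
    exact (hi n h1).2
  · intro n N
    have h1 : ∀ᶠ i in atTop, valid (l i) (dec (j i)) := by
      filter_upwards [hlj x₀ hE2] with i hi
      by_contra hcon
      have h2 : H (l i) (j i) = chi univ isClopen_univ := if_neg hcon
      rw [h2, chi_false] at hi
      exact hi trivial
    have h2 : ∀ᶠ i in atTop, max n N < l i := hl.tendsto_atTop.eventually (eventually_gt_atTop _)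
    obtain ⟨i, hi1, hi2⟩ := (h1.and h2).exists
    refine ⟨(dec (j i)).getD n 0, ?_, i, hi1, (le_max_left _ _).trans_lt hi2, rfl⟩
    have h3 := (hi1 n ((le_max_left _ _).trans_lt hi2)).1
    exact ((le_max_right n N).trans hi2.le).trans h3
  · intro y hy
    obtain ⟨I, hI⟩ := eventually_atTop.1 (hlj y hy)
    apply Set.Finite.subset (s := ⋃ i ∈ Finset.range I,
      (fun n => (n, (dec (j i)).getD n 0)) '' (Finset.range (l i) : Set ℕ))
    · apply Set.Finite.biUnion (Finset.finite_toSet _)
      intro i _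
      exact (Finset.finite_toSet _).image _
    · rintro ⟨n, t⟩ ⟨⟨i, hi, h1, h2⟩, h3⟩
      have h2' : t = (dec (j i)).getD n 0 := h2
      have h1' : n < l i := h1
      have h3' : (v n t).1 y = true := h3
      have hiI : i < I := by
        by_contra hcon
        have h4 := hI i (not_lt.1 hcon)
        have h5 : H (l i) (j i) = chi (U (l i) (dec (j i))) (hU (l i) (dec (j i))) := if_pos hi
        rw [h5, chi_false, hUmem] at h4
        exact h4 ⟨n, h1', by rw [← h2']; exact h3'⟩
      rw [mem_iUnion₂]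
      refine ⟨i, Finset.mem_range.2 hiI, n, ?_, ?_⟩
      · simpa using h1'
      · show (n, (dec (j i)).getD n 0) = (n, t)
        rw [h2']

theorem diag_one [SequentialSpace (CpD X)] (hF : HasFans X) (v : ℕ → ℕ → CpD X)
    (hv : ∀ n y, ∀ᶠ j in atTop, (v n j).1 y = false) :
    ∃ j : ℕ → ℕ, ∀ y, ∀ᶠ k in atTop, (v k (j k)).1 y = false := by
  classical
  rcases isEmpty_or_nonempty X with hX | hX
  · exact ⟨fun _ => 0, fun y => (hX.false y).elim⟩
  let FS : Type := {S : Set (ℕ × ℕ) // Full S}
  have hstep : ∀ S : FS, ∃ (E : ℕ → Set X) (S' : ℕ → FS), (∀ n, IsClopen (E n) ∧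
      (S' n).1 ⊆ S.1 ∧ ∀ y ∈ E n, {s ∈ (S' n).1 | (v s.1 s.2).1 y = true}.Finite) ∧
      ∀ x, ∃ n, x ∈ E n := by
    intro S
    obtain ⟨E, hE1, hE2⟩ := lindelof (X := X) (fun E => ∃ S' : FS, S'.1 ⊆ S.1 ∧
      ∀ y ∈ E, {s ∈ S'.1 | (v s.1 s.2).1 y = true}.Finite) (by
        intro x
        obtain ⟨E, h1, h2, S', h3, h4, h5⟩ := key hF v hv S.1 S.2 x
        exact ⟨E, h1, h2, ⟨S', h4⟩, h3, h5⟩)
    choose h1 S' h2 h3 using hE1
    exact ⟨E, S', fun n => ⟨h1 n, h2 n, h3 n⟩, hE2⟩
  choose Enx Snx hnx hcov using hstep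
  let root : FS := ⟨univ, fun n N => ⟨N, le_rfl, trivial⟩⟩
  let node : List ℕ → FS := fun σ => List.rec (motive := fun _ => FS) root
    (fun j _ S => Snx S j) σ
  have hnode : ∀ j σ, node (j :: σ) = Snx (node σ) j := fun _ _ => rfl
  let E : List ℕ → Set X := fun σ => match σ with
    | [] => univ
    | j :: σ => Enx (node σ) j
  obtain ⟨g, hg⟩ := branch hF E (fun σ j => (hnx (node σ) j).1) (fun σ x => hcov (node σ) x)
  have hsub : ∀ k d, (node (path g (k + d))).1 ⊆ (node (path g k)).1 := by
    intro k d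
    induction d with
    | zero => exact Subset.rfl
    | succ d ih =>
      have h1 : (node (path g (k + (d + 1)))).1 ⊆ (node (path g (k + d))).1 :=
        (hnx (node (path g (k + d))) (g (k + d))).2.1
      exact h1.trans ih
  have hpick : ∀ k, ∃ j, (k, j) ∈ (node (path g k)).1 := fun k => by
    obtain ⟨j, -, hj⟩ := (node (path g k)).2 k 0
    exact ⟨j, hj⟩
  choose j hj using hpick
  refine ⟨j, fun y => ?_⟩
  obtain ⟨k₀, hk₀⟩ := hg y
  have hfin := (hnx (node (path g k₀)) (g k₀)).2.2 y hk₀
  have hfin' : {k : ℕ | k₀ + 1 ≤ k ∧ (v k (j k)).1 y = true}.Finite := by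
    apply Set.Finite.of_finite_image (f := fun k => (k, j k)) _
      (fun a _ b _ h => congrArg Prod.fst h)
    apply hfin.subset
    rintro _ ⟨k, ⟨hk1, hk2⟩, rfl⟩
    refine ⟨?_, hk2⟩
    have h1 := hsub (k₀ + 1) (k - (k₀ + 1))
    rw [Nat.add_sub_cancel' hk1] at h1
    exact h1 (hj k)
  obtain ⟨B, hB⟩ := hfin'.bddAbove
  rw [eventually_atTop]
  refine ⟨max (k₀ + 1) (B + 1), fun k hk => ?_⟩
  by_contra hcon
  have h1 : (v k (j k)).1 y = true := by simpa using hcon
  have h2 := hB ⟨(le_max_left _ _).trans hk, h1⟩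
  have h3 := (le_max_right (k₀ + 1) (B + 1)).trans hk
  omega

theorem diag_two [SequentialSpace (CpD X)] (hF : ¬ HasFans X) (v : ℕ → ℕ → CpD X)
    (hv : ∀ n y, ∀ᶠ j in atTop, (v n j).1 y = false) :
    ∃ j : ℕ → ℕ, ∀ y, ∀ᶠ k in atTop, (v k (j k)).1 y = false := by
  classical
  unfold HasFans at hF
  push Not at hF
  obtain ⟨x₀, hx₀⟩ := hF
  let q : X → ℕ × ℕ → Bool := fun y s => (v s.1 s.2).1 y
  -- the fibres away from that of `x₀` are open
  let Y : ℕ × ℕ → Set X := fun s => {y | q y s ≠ q x₀ s}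
  have hq : ∀ s (b : Bool), IsClopen {y | q y s = b} := fun s b =>
    (isClopen_discrete {b}).preimage (v s.1 s.2).2
  have hY : ∀ s, IsClopen (Y s) := fun s => (hq s (q x₀ s)).compl
  have hfib : ∀ s, ∀ y ∈ Y s, IsClopen {y' | q y' = q y} := by
    intro s y hy
    have hcl : {y' | q y' = q y} = ⋂ t, {y' | q y' t = q y t} := by
      ext y'
      rw [mem_iInter]
      exact funext_iff
    constructor
    · rw [hcl]
      exact isClosed_iInter fun t => (hq t _).isClosed
    · let W : ℕ → Set X := fun k => Y s ∩ ⋂ n ∈ Finset.range k,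
        {y' | q y' (Nat.unpair n) = q y (Nat.unpair n)}
      have h1 := hx₀ W (fun k => (hY s).inter (Set.Finite.isClopen_biInter
        (Finset.finite_toSet _) fun n _ => hq _ _)) (by
          intro k y' hy'
          refine ⟨hy'.1, ?_⟩
          have h2 := hy'.2
          rw [mem_iInter₂] at h2 ⊢
          intro n hn
          exact h2 n (Finset.mem_range.2 ((Finset.mem_range.1 hn).trans (Nat.lt_succ_self k))))
        (fun h => h.1 rfl)
      have h2 : {y' | q y' = q y} = ⋂ k, W k := by
        ext y'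
        rw [mem_iInter]
        constructor
        · intro h k
          have h' : q y' = q y := h
          refine ⟨?_, ?_⟩
          · show q y' s ≠ q x₀ s
            rw [h']; exact hy
          · rw [mem_iInter₂]
            intro n _
            show q y' _ = q y _
            rw [h']
        · intro h
          show q y' = q y
          funext t
          have h3 := (h (Nat.pair t.1 t.2 + 1)).2
          rw [mem_iInter₂] at h3
          have h4 := h3 (Nat.pair t.1 t.2) (Finset.mem_range.2 (Nat.lt_succ_self _))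
          have h5 : q y' (Nat.unpair (Nat.pair t.1 t.2)) = q y (Nat.unpair (Nat.pair t.1 t.2)) := h4
          rwa [Nat.unpair_pair] at h5
      rw [h2]
      exact h1
  -- countably many fibres
  let A : Set (CpD X) := {g | (q '' {y | g.1 y = true}).Countable}
  have hA : IsSeqClosed A := by
    intro w f hw hf
    have h1 : q '' {y | f.1 y = true} ⊆ ⋃ n, q '' {y | (w n).1 y = true} := by
      rintro _ ⟨y, hy, rfl⟩
      obtain ⟨n, hn⟩ := (tendsto_iff.1 hf y).exists
      exact mem_iUnion.2 ⟨n, y, hn.trans hy, rfl⟩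
    exact (countable_iUnion fun n => hw n).mono h1
  have hcount : ∀ s, (q '' Y s).Countable := by
    intro s
    have h0 : chi (Y s) (hY s) ∈ closure A := by
      rw [mem_closure_iff_finset]
      intro F
      have hV : IsClopen (⋃ y ∈ F.filter (fun y => y ∈ Y s), {y' | q y' = q y}) := by
        apply Set.Finite.isClopen_biUnion (Finset.finite_toSet _)
        intro y hy
        exact hfib s y (by simpa using (Finset.mem_filter.1 hy).2)
      refine ⟨chi _ hV, ?_, ?_⟩
      · show (q '' {y | (chi _ hV).1 y = true}).Countable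
        apply Set.Countable.mono (s₂ := q '' (F : Set X)) _ (F.finite_toSet.image q).countable
        rintro _ ⟨y, hy, rfl⟩
        have hy' : (chi _ hV).1 y = true := hy
        rw [chi_true, mem_iUnion₂] at hy'
        obtain ⟨z, hz, hyz⟩ := hy'
        exact ⟨z, (Finset.mem_filter.1 hz).1, Eq.symm hyz⟩
      · intro y hy
        by_cases hys : y ∈ Y s
        · rw [chi_true.2 hys, chi_true, mem_iUnion₂]
          exact ⟨y, Finset.mem_filter.2 ⟨hy, hys⟩, rfl⟩
        · rw [chi_false.2 hys, chi_false, mem_iUnion₂]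
          rintro ⟨z, hz, hyz⟩
          have hz' : z ∈ Y s := (Finset.mem_filter.1 hz).2
          have hyz' : q y = q z := hyz
          apply hys
          show q y s ≠ q x₀ s
          rw [hyz']
          exact hz'
    rw [hA.isClosed.closure_eq] at h0
    have h1 : (q '' {y | (chi (Y s) (hY s)).1 y = true}).Countable := h0
    have h2 : {y | (chi (Y s) (hY s)).1 y = true} = Y s := by
      ext y; exact chi_true
    rwa [h2] at h1
  have hrange : (range q).Countable := by
    have h1 : range q ⊆ {q x₀} ∪ ⋃ s, q '' Y s := by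
      rintro _ ⟨y, rfl⟩
      by_cases h : q y = q x₀
      · exact Or.inl h
      · obtain ⟨s, hs⟩ := Function.ne_iff.1 h
        exact Or.inr (mem_iUnion.2 ⟨s, y, hs, rfl⟩)
    exact ((countable_singleton _).union (countable_iUnion hcount)).mono h1
  obtain ⟨e, he⟩ := hrange.exists_eq_range ⟨q x₀, x₀, rfl⟩
  have het : ∀ n, ∃ t, q t = e n := fun n => by
    have : e n ∈ range q := by rw [he]; exact ⟨n, rfl⟩
    exact this
  choose t ht using het
  have hj : ∀ k, ∃ j, ∀ i ∈ Finset.range (k + 1), (v k j).1 (t i) = false := by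
    intro k
    have h1 : ∀ᶠ j in atTop, ∀ i ∈ Finset.range (k + 1), (v k j).1 (t i) = false := by
      rw [Filter.eventually_all_finset]
      intro i _
      exact hv k (t i)
    exact h1.exists
  choose j hj using hj
  refine ⟨j, fun y => ?_⟩
  obtain ⟨n, hn⟩ : ∃ n, e n = q y := by
    have : q y ∈ range e := by rw [← he]; exact ⟨y, rfl⟩
    exact this
  rw [eventually_atTop]
  refine ⟨n, fun k hk => ?_⟩
  have h1 : q y (k, j k) = q (t n) (k, j k) := by rw [ht n, hn]
  have h2 : (v k (j k)).1 y = (v k (j k)).1 (t n) := h1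
  rw [h2]
  exact hj k n (Finset.mem_range.2 (by omega))

theorem diag [SequentialSpace (CpD X)] (v : ℕ → ℕ → CpD X)
    (hv : ∀ n y, ∀ᶠ j in atTop, (v n j).1 y = false) :
    ∃ j : ℕ → ℕ, ∀ y, ∀ᶠ k in atTop, (v k (j k)).1 y = false := by
  by_cases hF : HasFans X
  · exact diag_one hF v hv
  · exact diag_two hF v hv

/-- a sequential space `C_p(X, 𝔻)` is Frechet-Urysohn -/
theorem frechet [SequentialSpace (CpD X)] : FrechetUrysohnSpace (CpD X) := by
  constructor
  intro s
  have hseq : IsSeqClosed (seqClosure s) := by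
    intro x a hx ha
    choose w hw1 hw2 using hx
    rw [tendsto_iff] at ha
    let v : ℕ → ℕ → CpD X := fun n j => ⟨fun y => xor ((w n j).1 y) ((x n).1 y), by
      have h1 := (w n j).2
      have h2 := (x n).2
      exact (continuous_of_discreteTopology (f := fun p : Bool × Bool => xor p.1 p.2)).comp
        (h1.prodMk h2)⟩
    obtain ⟨j, hj⟩ := diag v (fun n y => by
      filter_upwards [tendsto_iff.1 (hw2 n) y] with i hi
      show xor ((w n i).1 y) ((x n).1 y) = false
      rw [hi]; simp)
    refine ⟨fun k => w k (j k), fun k => hw1 k (j k), ?_⟩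
    rw [tendsto_iff]
    intro y
    filter_upwards [hj y, ha y] with k h1 h2
    have h3 : xor ((w k (j k)).1 y) ((x k).1 y) = false := h1
    rw [← h2]
    cases h4 : (w k (j k)).1 y <;> cases h5 : (x k).1 y <;> simp_all
  exact closure_minimal subset_seqClosure hseq.isClosed

end Pool.Agent.Helper56.Cp
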