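import Pool.Agent.Helper56.Cp.Select

set_option autoImplicit false

open Set Filter Topology

namespace Pool.Agent.Helper56.Cp

universe u

variable {X : Type u} [TopologicalSpace X]

/-- the finite set of all (reversed) lists below a given (reversed) list of bounds -/
def box : List ℕ → Finset (List ℕ)
  | [] => {[]}
  | n :: φ => (box φ).biUnion fun σ => (Finset.range n).image fun j => j :: σ

theorem mem_box_cons {n : ℕ} {φ : List ℕ} {j : ℕ} {σ : List ℕ} :
    j :: σ ∈ box (n :: φ) ↔ σ ∈ box φ ∧ j < n := by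
  simp only [box, Finset.mem_biUnion, Finset.mem_image, Finset.mem_range, List.cons.injEq]
  constructor
  · rintro ⟨σ', h1, j', h2, rfl, rfl⟩
    exact ⟨h1, h2⟩
  · rintro ⟨h1, h2⟩
    exact ⟨σ, h1, j, h2, rfl, rfl⟩

/-- the reversed list of the first `k` values -/
def path (f : ℕ → ℕ) : ℕ → List ℕ
  | 0 => []
  | k + 1 => f k :: path f k

theorem path_mem_box (f : ℕ → ℕ) (B : ℕ) : ∀ k, (∀ i < k, f i < B) →
    path f k ∈ box (List.replicate k B)
  | 0, _ => by simp [path, box]
  | k + 1, h => by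
    rw [List.replicate_succ, path, mem_box_cons]
    exact ⟨path_mem_box f B k fun i hi => h i (by omega), h k (by omega)⟩

/-- locally constant functions -/
def LC {α : Type*} (g : X → α) : Prop := ∀ x₀, ∀ᶠ x in 𝓝 x₀, g x = g x₀

theorem LC.isClopen {α : Type*} {g : X → α} (hg : LC g) (s : Set α) : IsClopen (g ⁻¹' s) := by
  have h : ∀ s : Set α, IsOpen (g ⁻¹' s) := by
    intro s
    rw [isOpen_iff_mem_nhds]
    intro x hx
    filter_upwards [hg x] with y hy
    show g y ∈ s
    rw [hy]
    exact hx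
  exact ⟨⟨h sᶜ⟩, h s⟩

theorem LC.sup {β : Type*} {T : X → Finset β} (hT : LC T) {M : X → β → ℕ}
    (hM : ∀ b, LC fun x => M x b) : LC fun x => (T x).sup (M x) := by
  intro x₀
  have h1 : ∀ᶠ x in 𝓝 x₀, ∀ b ∈ T x₀, M x b = M x₀ b := by
    rw [Filter.eventually_all_finset]
    intro b _
    exact hM b x₀
  filter_upwards [hT x₀, h1] with x hx hx1
  rw [hx]
  exact Finset.sup_congr rfl hx1

section game

variable (M : X → List ℕ → ℕ)

/-- lists that extend `φ` by `d` values bounded by `M` -/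
def tr (x : X) (φ : List ℕ) : ℕ → Finset (List ℕ)
  | 0 => {φ}
  | d + 1 => (tr x φ d).biUnion fun ψ => (Finset.range (M x ψ + 1)).image fun j => j :: ψ

theorem lc_tr (hM : ∀ φ, LC fun x => M x φ) (φ : List ℕ) :
    ∀ d, LC fun x => tr M x φ d
  | 0 => fun x₀ => Eventually.of_forall fun x => rfl
  | d + 1 => by
    intro x₀
    have ih := lc_tr hM φ d
    have h1 : ∀ᶠ x in 𝓝 x₀, ∀ ψ ∈ tr M x₀ φ d, M x ψ = M x₀ ψ := by
      rw [Filter.eventually_all_finset]
      intro b _
      exact hM b x₀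
    filter_upwards [ih x₀, h1] with x hx hx1
    simp only [tr]
    rw [hx]
    apply Finset.biUnion_congr rfl
    intro ψ hψ
    rw [hx1 ψ hψ]

/-- bound for the values after an initial part -/
def bd (x : X) (φ : List ℕ) (d : ℕ) : ℕ := (tr M x φ d).sup (M x)

/-- common bound -/
def psi (x : X) (q : ℕ) : ℕ :=
  (Finset.range (q + 1)).sup fun p => (box (List.replicate p (q + 1))).sup fun φ => bd M x φ (q - p)

theorem lc_const {α : Type*} (a : α) : LC fun _ : X => a := fun _ => Eventually.of_forall fun _ => rfl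

theorem lc_psi (hM : ∀ φ, LC fun x => M x φ) (q : ℕ) : LC fun x => psi M x q := by
  unfold psi
  apply LC.sup (lc_const _)
  intro p
  apply LC.sup (lc_const _)
  intro φ
  exact LC.sup (lc_tr M hM φ (q - p)) hM

/-- the Menger game has no winning strategy for player ONE -/
theorem menger_game [SequentialSpace (CpD X)] (hF : HasFans X) (hM : ∀ φ, LC fun x => M x φ) :
    ∃ f : ℕ → ℕ, (∀ k, 0 < f k) ∧ ∀ x N, ∃ k ≥ N, M x (path f k) < f k := by
  obtain ⟨f₀, hf₀⟩ := menger hF (fun q n => {x | psi M x q < n})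
    (fun q n => (lc_psi M hM q).isClopen {m | m < n})
    (fun q x => ⟨psi M x q + 1, Nat.lt_succ_self _⟩)
    (fun q a b hab x (hx : psi M x q < a) => lt_of_lt_of_le hx hab)
  refine ⟨fun k => f₀ k + 1, fun k => Nat.succ_pos _, fun x N => ?_⟩
  set f : ℕ → ℕ := fun k => f₀ k + 1 with hf
  obtain ⟨q, hq, hqx⟩ := hf₀ x (max N ((Finset.range N).sup f))
  have hqN : N ≤ q := (le_max_left _ _).trans hq
  have hqf : ∀ i < N, f i < q + 1 := fun i hi => by
    have h1 : f i ≤ (Finset.range N).sup f := Finset.le_sup (Finset.mem_range.2 hi)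
    have h2 := (le_max_right N ((Finset.range N).sup f)).trans hq
    omega
  by_contra hcon
  push Not at hcon
  have htr : ∀ d, N + d ≤ q → path f (N + d) ∈ tr M x (path f N) d := by
    intro d
    induction d with
    | zero => intro _; simp [tr]
    | succ d ih =>
      intro hd
      have h1 := ih (by omega)
      have h2 := hcon (N + d) (by omega)
      show f (N + d) :: path f (N + d) ∈ tr M x (path f N) (d + 1)
      simp only [tr, Finset.mem_biUnion, Finset.mem_image, Finset.mem_range]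
      exact ⟨_, h1, f (N + d), by omega, rfl⟩
  have h1 := htr (q - N) (by omega)
  rw [Nat.add_sub_cancel' hqN] at h1
  have h2 : M x (path f q) ≤ bd M x (path f N) (q - N) := Finset.le_sup (f := M x) h1
  have h3 : bd M x (path f N) (q - N) ≤ psi M x q := by
    have h4 := path_mem_box f (q + 1) N hqf
    have h5 : bd M x (path f N) (q - N) ≤
        (box (List.replicate N (q + 1))).sup fun φ => bd M x φ (q - N) :=
      Finset.le_sup (f := fun φ => bd M x φ (q - N)) h4
    exact h5.trans (Finset.le_sup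
      (f := fun p => (box (List.replicate p (q + 1))).sup fun φ => bd M x φ (q - p))
      (Finset.mem_range.2 (by omega)))
  have h6 := hcon q hqN
  have h7 : psi M x q < f₀ q := hqx
  have h8 : f q = f₀ q + 1 := rfl
  omega

end game

/-- the branch lemma (the Rothberger game has no winning strategy for player ONE) -/
theorem branch [SequentialSpace (CpD X)] (hF : HasFans X) (E : List ℕ → Set X)
    (hE : ∀ σ j, IsClopen (E (j :: σ))) (hcov : ∀ σ x, ∃ j, x ∈ E (j :: σ)) :
    ∃ g : ℕ → ℕ, ∀ x, ∃ k, x ∈ E (path g (k + 1)) := by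
  classical
  -- index functions
  let ix : X → List ℕ → ℕ := fun x σ => Nat.find (hcov σ x)
  have hix : ∀ x σ, x ∈ E (ix x σ :: σ) := fun x σ => Nat.find_spec (hcov σ x)
  have hixLC : ∀ σ, LC fun x => ix x σ := by
    intro σ x₀
    have h1 : ∀ᶠ x in 𝓝 x₀, x ∈ E (ix x₀ σ :: σ) := (hE σ _).isOpen.mem_nhds (hix x₀ σ)
    have h2 : ∀ᶠ x in 𝓝 x₀, ∀ j ∈ Finset.range (ix x₀ σ), x ∉ E (j :: σ) := by
      rw [Filter.eventually_all_finset]
      intro j hj
      have h3 : x₀ ∉ E (j :: σ) := Nat.find_min (hcov σ x₀) (Finset.mem_range.1 hj)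
      exact (hE σ j).compl.isOpen.mem_nhds h3
    filter_upwards [h1, h2] with x hx1 hx2
    apply le_antisymm
    · exact Nat.find_min' _ hx1
    · by_contra hlt
      push Not at hlt
      exact hx2 _ (Finset.mem_range.2 hlt) (hix x σ)
  let M : X → List ℕ → ℕ := fun x φ => (box φ).sup (ix x)
  have hM : ∀ φ, LC fun x => M x φ := fun φ => LC.sup (lc_const _) hixLC
  obtain ⟨f, hf0, hf⟩ := menger_game M hF hM
  -- the Rothberger covers
  obtain ⟨dec, hdec⟩ := exists_surjective_nat (Finset ℕ × (List ℕ →₀ ℕ))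
  let Wd : Finset ℕ → (List ℕ →₀ ℕ) → Set X := fun K Γ =>
    ⋂ k ∈ K, ⋂ σ ∈ box (path f k), {x | Γ σ < f k ∧ x ∈ E (Γ σ :: σ)}
  have hWd : ∀ K Γ, IsClopen (Wd K Γ) := by
    intro K Γ
    apply Set.Finite.isClopen_biInter K.finite_toSet
    intro k _
    apply Set.Finite.isClopen_biInter (Finset.finite_toSet _)
    intro σ _
    by_cases h : Γ σ < f k
    · simp only [h, true_and]
      exact hE σ _
    · simp only [h, false_and]
      exact isClopen_empty
  have hWdmem : ∀ K Γ x, x ∈ Wd K Γ ↔ ∀ k ∈ K, ∀ σ ∈ box (path f k),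
      Γ σ < f k ∧ x ∈ E (Γ σ :: σ) := by
    intro K Γ x
    simp only [Wd, mem_iInter, mem_ofPred_eq]
  let 𝒲 : ℕ → ℕ → Set X := fun m i => if (dec i).1.card = m + 1 then Wd (dec i).1 (dec i).2 else ∅
  obtain ⟨ρ, hρ⟩ := rothberger hF 𝒲 (by
    intro m i
    show IsClopen (if (dec i).1.card = m + 1 then Wd (dec i).1 (dec i).2 else ∅)
    split_ifs
    · exact hWd _ _
    · exact isClopen_empty) (by
    intro m x
    have hinf : {k | M x (path f k) < f k}.Infinite := by
      rw [Set.infinite_iff_exists_gt]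
      intro a
      obtain ⟨k, hk, hk2⟩ := hf x (a + 1)
      exact ⟨k, hk2, by omega⟩
    obtain ⟨K, hK1, hK2⟩ := hinf.exists_subset_card_eq (m + 1)
    let sup : Finset (List ℕ) := K.biUnion fun k => box (path f k)
    let Γ : List ℕ →₀ ℕ := Finsupp.onFinset sup (fun σ => if σ ∈ sup then ix x σ else 0)
      (fun σ h => by
        by_contra hcon
        simp [hcon] at h)
    obtain ⟨i, hi⟩ := hdec (K, Γ)
    refine ⟨i, ?_⟩
    show x ∈ if (dec i).1.card = m + 1 then Wd (dec i).1 (dec i).2 else ∅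
    rw [hi, if_pos hK2, hWdmem]
    intro k hk σ hσ
    have h1 : Γ σ = ix x σ := by
      have : σ ∈ sup := Finset.mem_biUnion.2 ⟨k, hk, hσ⟩
      show (if σ ∈ sup then ix x σ else 0) = ix x σ
      rw [if_pos this]
    rw [h1]
    refine ⟨?_, hix x σ⟩
    have h2 : ix x σ ≤ M x (path f k) := Finset.le_sup (f := ix x) hσ
    exact lt_of_le_of_lt h2 (hK1 hk))
  -- distinct levels
  let Kf : ℕ → Finset ℕ := fun m => (dec (ρ m)).1
  let valid : ℕ → Prop := fun m => (Kf m).card = m + 1
  obtain ⟨κ, hκ⟩ : ∃ κ : ℕ → ℕ, ∀ m, valid m → κ m ∈ Kf m ∧ ∀ i < m, κ m ≠ κ i := by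
    have hstep : ∀ (m : ℕ) (prev : ∀ i, i < m → ℕ), ∃ v, valid m →
        v ∈ Kf m ∧ ∀ i (hi : i < m), v ≠ prev i hi := by
      intro m prev
      by_cases hv : valid m
      · have hcard : ((Finset.univ : Finset (Fin m)).image fun i => prev i.1 i.2).card < (Kf m).card := by
          have h1 := Finset.card_image_le (s := (Finset.univ : Finset (Fin m)))
            (f := fun i => prev i.1 i.2)
          rw [Finset.card_univ, Fintype.card_fin] at h1
          have h2 : (Kf m).card = m + 1 := hv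
          omega
        obtain ⟨v, hv1, hv2⟩ := Finset.exists_mem_notMem_of_card_lt_card hcard
        refine ⟨v, fun _ => ⟨hv1, fun i hi h => hv2 ?_⟩⟩
        rw [Finset.mem_image]
        exact ⟨⟨i, hi⟩, Finset.mem_univ _, h.symm⟩
      · exact ⟨0, fun h => absurd h hv⟩
    choose v hv using hstep
    let κ : ℕ → ℕ := fun m => Nat.strongRec (motive := fun _ => ℕ) (fun m prev => v m prev) m
    have hκ : ∀ m, κ m = v m (fun i _ => κ i) := fun m => Nat.strongRec_eq _ m
    refine ⟨κ, fun m hm => ?_⟩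
    have h1 := hv m (fun i _ => κ i) hm
    rw [← hκ m] at h1
    exact h1
  have hinj : ∀ m m', valid m → valid m' → κ m = κ m' → m = m' := by
    intro m m' hm hm' h
    rcases lt_trichotomy m m' with h1 | h1 | h1
    · exact absurd h.symm ((hκ m' hm').2 m h1)
    · exact h1
    · exact absurd h ((hκ m hm).2 m' h1)
  -- the branch
  let G : ℕ → List ℕ → ℕ := fun k σ =>
    if h : ∃ m, valid m ∧ κ m = k ∧ (dec (ρ m)).2 σ < f k then (dec (ρ h.choose)).2 σ else 0
  have hGlt : ∀ k σ, G k σ < f k := by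
    intro k σ
    by_cases h : ∃ m, valid m ∧ κ m = k ∧ (dec (ρ m)).2 σ < f k
    · have : G k σ = (dec (ρ h.choose)).2 σ := dif_pos h
      rw [this]
      exact h.choose_spec.2.2
    · have : G k σ = 0 := dif_neg h
      rw [this]
      exact hf0 k
  let pth : ℕ → List ℕ := fun k =>
    Nat.rec (motive := fun _ => List ℕ) [] (fun k σ => G k σ :: σ) k
  let g : ℕ → ℕ := fun k => G k (pth k)
  have hpth : ∀ k, path g k = pth k := by
    intro k
    induction k with
    | zero => rfl
    | succ k ih =>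
      show g k :: path g k = G k (pth k) :: pth k
      rw [ih]
  have hbox : ∀ k, pth k ∈ box (path f k) := by
    intro k
    induction k with
    | zero => simp [pth, path, box]
    | succ k ih =>
      show G k (pth k) :: pth k ∈ box (f k :: path f k)
      rw [mem_box_cons]
      exact ⟨ih, hGlt _ _⟩
  refine ⟨g, fun x => ?_⟩
  obtain ⟨m, hm⟩ := hρ x
  have hm' : x ∈ if (dec (ρ m)).1.card = m + 1 then Wd (dec (ρ m)).1 (dec (ρ m)).2 else ∅ := hm
  have hval : valid m := by
    by_contra h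
    have h' : ¬ (dec (ρ m)).1.card = m + 1 := h
    rw [if_neg h'] at hm'
    exact hm'
  have hval' : (dec (ρ m)).1.card = m + 1 := hval
  rw [if_pos hval', hWdmem] at hm'
  have h1 := hm' (κ m) (hκ m hval).1 (pth (κ m)) (hbox _)
  refine ⟨κ m, ?_⟩
  rw [hpth]
  show x ∈ E (G (κ m) (pth (κ m)) :: pth (κ m))
  have hex : ∃ m', valid m' ∧ κ m' = κ m ∧ (dec (ρ m')).2 (pth (κ m)) < f (κ m) :=
    ⟨m, hval, rfl, h1.1⟩
  have h2 : G (κ m) (pth (κ m)) = (dec (ρ hex.choose)).2 (pth (κ m)) := dif_pos hex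
  have h3 : hex.choose = m := hinj _ _ hex.choose_spec.1 hval hex.choose_spec.2.1
  rw [h2, h3]
  exact h1.2

end Pool.Agent.Helper56.Cp
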