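import Pool.Agent.Helper56.Cp.Defs

set_option autoImplicit false

open Set Filter Topology
open scoped Cardinal

namespace Pool.Agent.Helper56.Cp

universe u

/-- Intersections of at most `κ` open subsets of `X` are open. -/
def IsPSpace (κ : Cardinal.{u}) (X : Type u) [TopologicalSpace X] : Prop :=
  ∀ 𝒰 : Set (Set X), #𝒰 ≤ κ → (∀ U ∈ 𝒰, IsOpen U) → IsOpen (⋂₀ 𝒰)

/-- The Lindelof degree of `X` is at most `κ`: every open cover of `X` has a subcover with at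
most `κ` members. -/
def LindelofDegreeLE (κ : Cardinal.{u}) (X : Type u) [TopologicalSpace X] : Prop :=
  ∀ 𝒰 : Set (Set X), (∀ U ∈ 𝒰, IsOpen U) → ⋃₀ 𝒰 = univ →
    ∃ 𝒱 : Set (Set X), 𝒱 ⊆ 𝒰 ∧ #𝒱 ≤ κ ∧ ⋃₀ 𝒱 = univ

end Pool.Agent.Helper56.Cp
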