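import Pool.Agent.Helper56.Cp.KDefs

set_option autoImplicit false

open Set Filter Topology
open scoped Cardinal

namespace Pool.Agent.Helper56.Cp

universe u

/-- the product of a compact Hausdorff space and a first countable space is a
k-space -/
theorem coherent_prod {K M : Type u} [TopologicalSpace K] [CompactSpace K] [T2Space K]
    [TopologicalSpace M] [FirstCountableTopology M] :
    CompactlyCoherentSpace (K × M) := by
  apply CompactlyCoherentSpace.of_isClosed
  intro A hA
  rw [← isOpen_compl_iff, isOpen_iff_mem_nhds]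
  rintro ⟨x, m⟩ hxm
  -- the slice over `m`
  have hslice : IsClosed {v : K | (v, m) ∈ A} := by
    have hc : IsCompact (univ ×ˢ {m} : Set (K × M)) := isCompact_univ.prod isCompact_singleton
    have h1 := hA _ hc
    let f : K → (univ ×ˢ {m} : Set (K × M)) := fun v => ⟨(v, m), ⟨trivial, rfl⟩⟩
    have hf : Continuous f := by
      apply Continuous.subtype_mk
      fun_prop
    exact h1.preimage hf
  have hx : {v : K | (v, m) ∈ A}ᶜ ∈ 𝓝 x := hslice.isOpen_compl.mem_nhds hxm
  obtain ⟨V, hVx, hVc, hVs⟩ := exists_mem_nhds_isClosed_subset hx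
  obtain ⟨B, hB⟩ := (𝓝 m).exists_antitone_basis
  by_contra hcon
  have hne : ∀ i : ℕ, ∃ v : K, ∃ m' : M, v ∈ V ∧ m' ∈ B i ∧ (v, m') ∈ A := by
    intro i
    by_contra h
    push Not at h
    apply hcon
    have : V ×ˢ B i ∈ 𝓝 (x, m) := prod_mem_nhds hVx (hB.mem i)
    filter_upwards [this] with p hp hpA
    exact h p.1 p.2 hp.1 hp.2 hpA
  choose v m' hv hm' hvm using hne
  have htend : Tendsto m' atTop (𝓝 m) := hB.tendsto hm'
  have hK : IsCompact (V ×ˢ insert m (range m')) :=
    hVc.isCompact.prod htend.isCompact_insert_range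
  have h1 := hA _ hK
  obtain ⟨C, hC, hCA⟩ := isClosed_induced_iff.1 h1
  -- a cluster point
  obtain ⟨w, hwV, hw⟩ := hVc.isCompact (f := map v atTop) (by
    rw [le_principal_iff, Filter.mem_map]
    exact Filter.Eventually.of_forall hv)
  have hcl : ClusterPt (w, m) (map (fun i => (v i, m' i)) atTop) := by
    rw [← mapClusterPt_def] at hw ⊢
    rw [mapClusterPt_iff_frequently] at hw ⊢
    intro s hs
    obtain ⟨s₁, hs₁, s₂, hs₂, hss⟩ := mem_nhds_prod_iff.1 hs
    have h2 : ∀ᶠ i in atTop, m' i ∈ s₂ := htend hs₂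
    exact ((hw s₁ hs₁).and_eventually h2).mono fun i hi => hss ⟨hi.1, hi.2⟩
  have hallC : ∀ i, (v i, m' i) ∈ C := by
    intro i
    have hi : (v i, m' i) ∈ V ×ˢ insert m (range m') := ⟨hv i, mem_insert_of_mem _ ⟨i, rfl⟩⟩
    have h2 : (⟨(v i, m' i), hi⟩ : (V ×ˢ insert m (range m') : Set (K × M))) ∈
        Subtype.val ⁻¹' C := by
      rw [hCA]; exact hvm i
    exact h2
  have hwC : (w, m) ∈ C := by
    apply isClosed_iff_clusterPt.1 hC
    apply hcl.mono
    rw [le_principal_iff, Filter.mem_map]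
    exact Filter.Eventually.of_forall hallC
  have hmem : (w, m) ∈ V ×ˢ insert m (range m') := ⟨hwV, mem_insert _ _⟩
  have h3 : (⟨(w, m), hmem⟩ : (V ×ˢ insert m (range m') : Set (K × M))) ∈
      Subtype.val ⁻¹' C := hwC
  rw [hCA] at h3
  exact hVs hwV h3

/-- In a compactly coherent space `W`, the preimage of a `k`-closed set under a continuous map
is closed. -/
theorem closed_preimage {Z W : Type u} [TopologicalSpace Z] [TopologicalSpace W]
    [CompactlyCoherentSpace W] (j : W → Z) (hj : Continuous j) (A : Set Z)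
    (hA : ∀ K : Set Z, IsCompact K → IsClosed (Subtype.val ⁻¹' A : Set K)) :
    IsClosed (j ⁻¹' A) := by
  rw [CompactlyCoherentSpace.isClosed_iff]
  intro K hK
  have h2 := hA _ (hK.image hj)
  let f : K → (j '' K : Set Z) := fun x => ⟨j x.1, ⟨x.1, x.2, rfl⟩⟩
  have hf : Continuous f := by
    apply Continuous.subtype_mk
    exact hj.comp continuous_subtype_val
  exact h2.preimage hf

/-- k-spaces are preserved by homeomorphisms -/
theorem coherent_homeo {Z W : Type u} [TopologicalSpace Z] [TopologicalSpace W] (e : Z ≃ₜ W)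
    [CompactlyCoherentSpace Z] : CompactlyCoherentSpace W := by
  apply CompactlyCoherentSpace.of_isClosed
  intro A hA
  exact e.isClosed_preimage.1 (closed_preimage e e.continuous A hA)

/-- basic neighbourhoods in the topology of pointwise convergence -/
theorem cpd_nhds {X : Type u} [TopologicalSpace X] (f : CpD X) {U : Set (CpD X)}
    (hU : U ∈ 𝓝 f) : ∃ I : Finset X, ∀ g : CpD X, (∀ x ∈ I, g.1 x = f.1 x) → g ∈ U := by
  obtain ⟨V, hV, hVU⟩ := (mem_nhds_induced _ _ _).1 hU
  rw [nhds_pi, Filter.mem_pi] at hV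
  obtain ⟨I, hI, t, ht, hsub⟩ := hV
  refine ⟨hI.toFinset, fun g hg => hVU (hsub ?_)⟩
  intro x hx
  rw [hg x (hI.mem_toFinset.2 hx)]
  exact mem_of_mem_nhds (ht x)

theorem cpd_mem_nhds {X : Type u} [TopologicalSpace X] (f : CpD X) {ι : Type*} [Finite ι]
    (x : ι → X) : {g : CpD X | ∀ i, g.1 (x i) = f.1 (x i)} ∈ 𝓝 f := by
  have h : IsOpen {g : CpD X | ∀ i, g.1 (x i) = f.1 (x i)} := by
    rw [ofPred_forall]
    apply isOpen_iInter_of_finite
    intro i
    have hc : Continuous fun g : CpD X => g.1 (x i) :=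
      (continuous_apply (x i)).comp continuous_subtype_val
    exact (isOpen_discrete {f.1 (x i)}).preimage hc
  exact h.mem_nhds fun i => rfl

theorem IsPSpace.iInter {κ : Cardinal.{u}} {X : Type u} [TopologicalSpace X]
    (hP : IsPSpace κ X) {ι : Type u} (hι : #ι ≤ κ) (U : ι → Set X) (hU : ∀ i, IsOpen (U i)) :
    IsOpen (⋂ i, U i) := by
  rw [← sInter_range]
  apply hP _ (Cardinal.mk_range_le.trans hι)
  rintro _ ⟨i, rfl⟩
  exact hU i

/-- if the fibres of `q` are open then every function which is constant on the fibres of `q` is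
continuous -/
theorem continuous_of_fibres {X : Type u} {Q : Type*} [TopologicalSpace X] (q : X → Q)
    (hq : ∀ x, IsOpen {y | q y = q x}) (h : X → Bool) (hh : ∀ x y, q y = q x → h y = h x) :
    Continuous h := by
  rw [continuous_iff_continuousAt]
  intro x
  apply ContinuousAt.congr (f := fun _ => h x) continuousAt_const
  filter_upwards [(hq x).mem_nhds rfl] with y hy
  exact (hh x y hy).symm

/-- **Main theorem**: `C_p(X, 𝔻) × C_p(Y, 𝔻)` is a k-space -/
theorem coherent_main {κ : Cardinal.{u}} (hκ : ℵ₀ ≤ κ) (X Y : Type u) [TopologicalSpace X]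
    [TopologicalSpace Y] [Countable Y] (hP : IsPSpace κ X)
    (hL : ∀ n : ℕ, LindelofDegreeLE κ (Fin n → X)) :
    CompactlyCoherentSpace (CpD X × CpD Y) := by
  apply CompactlyCoherentSpace.of_isClosed
  intro A hA
  rw [← closure_subset_iff_isClosed]
  rintro ⟨f, e⟩ hfe
  -- approximations
  have happ : ∀ (n : ℕ) (F : Finset Y) (x : Fin n → X), ∃ g : CpD X × CpD Y, g ∈ A ∧
      (∀ i, g.1.1 (x i) = f.1 (x i)) ∧ ∀ y ∈ F, g.2.1 y = e.1 y := by
    intro n F x
    have h1 := prod_mem_nhds (cpd_mem_nhds f x) (cpd_mem_nhds e (fun y : F => y.1))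
    obtain ⟨g, hg, hgA⟩ := mem_closure_iff_nhds.1 hfe _ h1
    exact ⟨g, hgA, hg.1, fun y hy => hg.2 ⟨y, hy⟩⟩
  choose G hGA hGf hGe using happ
  have hWo : ∀ (n : ℕ) (F : Finset Y) (x : Fin n → X),
      IsOpen {z : Fin n → X | ∀ i, (G n F x).1.1 (z i) = f.1 (z i)} := by
    intro n F x
    rw [ofPred_forall]
    apply isOpen_iInter_of_finite
    intro i
    have h1 : Continuous fun z : Fin n → X => ((G n F x).1.1 (z i), f.1 (z i)) :=
      ((G n F x).1.2.comp (continuous_apply i)).prodMk (f.2.comp (continuous_apply i))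
    exact (isOpen_discrete {p : Bool × Bool | p.1 = p.2}).preimage h1
  have hsub : ∀ (p : ℕ × Finset Y), ∃ 𝒱 : Set (Set (Fin p.1 → X)),
      𝒱 ⊆ range (fun x : Fin p.1 → X =>
        {z : Fin p.1 → X | ∀ i, (G p.1 p.2 x).1.1 (z i) = f.1 (z i)}) ∧ #𝒱 ≤ κ ∧
      ⋃₀ 𝒱 = univ := by
    intro p
    apply hL p.1
    · rintro _ ⟨x, rfl⟩
      exact hWo p.1 p.2 x
    · rw [eq_univ_iff_forall]
      intro x
      exact ⟨_, ⟨x, rfl⟩, hGf p.1 p.2 x⟩
  choose 𝒱 h𝒱 h𝒱κ h𝒱u using hsub
  have hsel : ∀ (p : ℕ × Finset Y) (V : 𝒱 p), ∃ x : Fin p.1 → X,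
      {z : Fin p.1 → X | ∀ i, (G p.1 p.2 x).1.1 (z i) = f.1 (z i)} = V.1 :=
    fun p V => h𝒱 p V.2
  choose x hx using hsel
  -- the index type of the functions used
  let ι : Type u := Σ p : ℕ × Finset Y, 𝒱 p
  have hι : #ι ≤ κ := by
    rw [Cardinal.mk_sigma]
    calc Cardinal.sum (fun p : ℕ × Finset Y => #(𝒱 p))
        ≤ #(ℕ × Finset Y) * ⨆ p, #(𝒱 p) := Cardinal.sum_le_mk_mul_iSup _
      _ ≤ ℵ₀ * κ := by
          gcongr
          · exact Cardinal.mk_le_aleph0
          · exact ciSup_le' h𝒱κ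
      _ = κ := Cardinal.aleph0_mul_eq hκ
  let q : X → Bool × (ι → Bool) := fun z => (f.1 z, fun s => (G s.1.1 s.1.2 (x s.1 s.2)).1.1 z)
  have hq : ∀ z, IsOpen {y | q y = q z} := by
    intro z
    have h1 : {y | q y = q z} = {y | f.1 y = f.1 z} ∩
        ⋂ s : ι, {y | (G s.1.1 s.1.2 (x s.1 s.2)).1.1 y =
          (G s.1.1 s.1.2 (x s.1 s.2)).1.1 z} := by
      ext y
      simp only [q, mem_ofPred_eq, Prod.mk.injEq, funext_iff, mem_inter_iff, mem_iInter]
    rw [h1]
    apply IsOpen.inter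
    · exact (isOpen_discrete {f.1 z}).preimage f.2
    · apply hP.iInter hι
      intro s
      exact (isOpen_discrete {(G s.1.1 s.1.2 (x s.1 s.2)).1.1 z}).preimage
        (G s.1.1 s.1.2 (x s.1 s.2)).1.2
  let K₁ : Set (CpD X) := {h | ∀ z y, q y = q z → h.1 y = h.1 z}
  have hK₁ : IsCompact K₁ := by
    rw [Topology.IsEmbedding.subtypeVal.isCompact_iff]
    have h1 : Subtype.val '' K₁ = {h : X → Bool | ∀ z y, q y = q z → h y = h z} := by
      ext h
      constructor
      · rintro ⟨h, hh, rfl⟩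
        exact hh
      · intro hh
        exact ⟨⟨h, continuous_of_fibres q hq h hh⟩, hh, rfl⟩
    rw [h1]
    apply IsClosed.isCompact
    simp only [ofPred_forall]
    refine isClosed_iInter fun z => isClosed_iInter fun y => isClosed_iInter fun _ => ?_
    exact isClosed_eq (continuous_apply y) (continuous_apply z)
  have : CompactSpace K₁ := isCompact_iff_compactSpace.1 hK₁
  have : FirstCountableTopology (CpD Y) :=
    Topology.IsInducing.subtypeVal.firstCountableTopology
  have : CompactlyCoherentSpace (K₁ × CpD Y) := coherent_prod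
  let j : K₁ × CpD Y → CpD X × CpD Y := fun p => (p.1.1, p.2)
  have hj : Continuous j := by fun_prop
  have hcl : IsClosed (j ⁻¹' A) := closed_preimage j hj A hA
  have hfK : f ∈ K₁ := by
    intro z y hzy
    exact congrArg Prod.fst hzy
  have hGK : ∀ s : ι, (G s.1.1 s.1.2 (x s.1 s.2)).1 ∈ K₁ := by
    intro s z y hzy
    exact congrFun (congrArg Prod.snd hzy) s
  have hmem : ((⟨f, hfK⟩, e) : K₁ × CpD Y) ∈ closure (j ⁻¹' A) := by
    rw [mem_closure_iff_nhds]
    intro U hU
    obtain ⟨U₁, hU₁, U₂, hU₂, hUU⟩ := mem_nhds_prod_iff.1 hU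
    obtain ⟨U₁', hU₁', hU₁s⟩ := (mem_nhds_induced _ _ _).1 hU₁
    obtain ⟨I, hI⟩ := cpd_nhds f hU₁'
    obtain ⟨F, hF⟩ := cpd_nhds e hU₂
    let t : Fin I.card → X := fun i => (I.equivFin.symm i).1
    have ht : t ∈ ⋃₀ 𝒱 (I.card, F) := by rw [h𝒱u]; trivial
    obtain ⟨V, hV, htV⟩ := ht
    have h1 := hx (I.card, F) ⟨V, hV⟩
    have h2 : t ∈ {z : Fin I.card → X | ∀ i,
        (G I.card F (x (I.card, F) ⟨V, hV⟩)).1.1 (z i) = f.1 (z i)} := by
      rw [h1]; exact htV
    refine ⟨(⟨(G I.card F (x (I.card, F) ⟨V, hV⟩)).1, hGK ⟨(I.card, F), ⟨V, hV⟩⟩⟩,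
      (G I.card F (x (I.card, F) ⟨V, hV⟩)).2), ?_, ?_⟩
    · apply hUU
      refine ⟨hU₁s (hI _ ?_), hF _ (hGe _ _ _)⟩
      intro z hz
      have h3 := h2 (I.equivFin ⟨z, hz⟩)
      simpa [t] using h3
    · exact hGA _ _ _
  rw [hcl.closure_eq] at hmem
  exact hmem

/-- the function space of a disjoint sum -/
def sumHomeo (X Y : Type u) [TopologicalSpace X] [TopologicalSpace Y] :
    CpD X × CpD Y ≃ₜ CpD (X ⊕ Y) where
  toFun p := ⟨Sum.elim p.1.1 p.2.1, p.1.2.sumElim p.2.2⟩
  invFun f := (⟨fun x => f.1 (Sum.inl x), f.2.comp continuous_inl⟩,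
    ⟨fun y => f.1 (Sum.inr y), f.2.comp continuous_inr⟩)
  left_inv p := by
    apply Prod.ext
    · apply Subtype.ext; rfl
    · apply Subtype.ext; rfl
  right_inv f := by
    apply Subtype.ext
    funext x
    rcases x with d | y <;> rfl
  continuous_toFun := by
    apply Continuous.subtype_mk
    rw [continuous_pi_iff]
    intro x
    rcases x with d | y
    · exact (continuous_apply d).comp (continuous_subtype_val.comp continuous_fst)
    · exact (continuous_apply y).comp (continuous_subtype_val.comp continuous_snd)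
  continuous_invFun := by
    apply Continuous.prodMk
    · apply Continuous.subtype_mk
      rw [continuous_pi_iff]
      intro d
      exact (continuous_apply (Sum.inl d)).comp continuous_subtype_val
    · apply Continuous.subtype_mk
      rw [continuous_pi_iff]
      intro y
      exact (continuous_apply (Sum.inr y)).comp continuous_subtype_val

theorem zeroDim_sum {X Y : Type u} [TopologicalSpace X] [TopologicalSpace Y] (hX : ZeroDim X)
    (hY : ZeroDim Y) : ZeroDim (X ⊕ Y) := by
  obtain ⟨hT, hB⟩ := hY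
  obtain ⟨hT', hB'⟩ := hX
  refine ⟨inferInstance, ?_⟩
  apply TopologicalSpace.isTopologicalBasis_of_isOpen_of_nhds
  · intro s hs
    exact hs.isOpen
  · intro x U hx hU
    rcases x with x | y
    · have h1 : IsOpen (Sum.inl ⁻¹' U : Set X) := hU.preimage continuous_inl
      obtain ⟨V, hV, hyV, hVU⟩ := hB'.exists_subset_of_mem_open hx h1
      have hV' : IsClopen V := hV
      refine ⟨Sum.inl '' V, ⟨?_, isOpenMap_inl _ hV'.isOpen⟩, ⟨x, hyV, rfl⟩, ?_⟩
      · exact Topology.IsClosedEmbedding.inl.isClosedMap _ hV'.isClosed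
      · rintro _ ⟨z, hz, rfl⟩
        exact hVU hz
    · have h1 : IsOpen (Sum.inr ⁻¹' U : Set Y) := hU.preimage continuous_inr
      obtain ⟨V, hV, hyV, hVU⟩ := hB.exists_subset_of_mem_open hx h1
      have hV' : IsClopen V := hV
      refine ⟨Sum.inr '' V, ⟨?_, isOpenMap_inr _ hV'.isOpen⟩, ⟨y, hyV, rfl⟩, ?_⟩
      · exact Topology.IsClosedEmbedding.inr.isClosedMap _ hV'.isClosed
      · rintro _ ⟨z, hz, rfl⟩
        exact hVU hz

/-- an uncountable zero-dimensional space in which intersections of `ℵ₁` open sets are open has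
a partition into uncountably many open sets -/
theorem exists_partition {κ : Cardinal.{u}} (hκ : ℵ₀ < κ) (X : Type u) [TopologicalSpace X]
    [Uncountable X] (hX : ZeroDim X) (hP : IsPSpace κ X) :
    ∃ (Q : Type u) (q : X → Q), (∀ z, IsOpen {y | q y = q z}) ∧ ¬ (range q).Countable := by
  have hκ₁ : Cardinal.aleph 1 ≤ κ := by
    rw [← Cardinal.succ_aleph0]
    exact Order.succ_le_of_lt hκ
  have hX₁ : Cardinal.aleph 1 ≤ #X := by
    rw [← Cardinal.succ_aleph0]
    apply Order.succ_le_of_lt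
    exact Cardinal.aleph0_lt_mk
  obtain ⟨s, hs⟩ := Cardinal.le_mk_iff_exists_set.1 hX₁
  obtain ⟨hT, hB⟩ := hX
  have hsep : ∀ p : s × s, ∃ C : Set X, IsClopen C ∧ (p.1 ≠ p.2 → p.1.1 ∈ C ∧ p.2.1 ∉ C) := by
    intro p
    by_cases hp : p.1 = p.2
    · exact ⟨univ, isClopen_univ, fun h => absurd hp h⟩
    · have h1 : IsOpen ({p.2.1}ᶜ : Set X) := isOpen_compl_singleton
      have h2 : p.1.1 ∈ ({p.2.1}ᶜ : Set X) := fun h => hp (Subtype.ext h)
      obtain ⟨C, hC, h3, h4⟩ := hB.exists_subset_of_mem_open h2 h1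
      exact ⟨C, hC, fun _ => ⟨h3, fun h5 => h4 h5 rfl⟩⟩
  choose C hC hCs using hsep
  refine ⟨s × s → Prop, fun x p => x ∈ C p, ?_, ?_⟩
  · intro z
    have h1 : {y | (fun p => y ∈ C p) = (fun p : s × s => z ∈ C p)} =
        ⋂ p : s × s, {y | y ∈ C p ↔ z ∈ C p} := by
      ext y
      simp [funext_iff]
    rw [h1]
    apply hP.iInter
    · rw [Cardinal.mk_prod, Cardinal.lift_id, hs, Cardinal.mul_eq_self]
      · exact hκ₁
      · exact Cardinal.aleph0_le_aleph 1
    · intro p
      by_cases hz : z ∈ C p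
      · simpa [hz] using (hC p).isOpen
      · have h5 : {y | y ∈ C p ↔ z ∈ C p} = (C p)ᶜ := by
          ext y
          simp [hz]
        rw [h5]
        exact (hC p).compl.isOpen
  · intro hcount
    have hinj : Function.Injective fun x : s => (⟨fun p => x.1 ∈ C p, ⟨x.1, rfl⟩⟩ :
        range fun (x : X) (p : s × s) => x ∈ C p) := by
      intro a b hab
      by_contra hne
      have h1 : (a.1 ∈ C (a, b)) = (b.1 ∈ C (a, b)) :=
        congrFun (congrArg Subtype.val hab) (a, b)
      have h2 := hCs (a, b) hne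
      exact h2.2 (h1 ▸ h2.1)
    have : Countable (range fun (x : X) (p : s × s) => x ∈ C p) := hcount
    have h3 : Countable s := hinj.countable
    have h4 : #s ≤ ℵ₀ := Cardinal.mk_le_aleph0
    rw [hs, ← not_lt] at h4
    exact h4 Cardinal.aleph0_lt_aleph_one

theorem not_sequential {κ : Cardinal.{u}} (hκ : ℵ₀ < κ) (X Y : Type u) [TopologicalSpace X]
    [TopologicalSpace Y] [Uncountable X] (hX : ZeroDim X) (hP : IsPSpace κ X) :
    ¬ SequentialSpace (CpD (X ⊕ Y)) := by
  intro hseq
  obtain ⟨Q, q, hq, hr⟩ := exists_partition hκ X hX hP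
  -- functions supported on countably many cells
  let A : Set (CpD (X ⊕ Y)) := {f | (q '' {x : X | f.1 (Sum.inl x) = true}).Countable}
  have hA : IsSeqClosed A := by
    intro u f hu hf
    have h1 : q '' {x : X | f.1 (Sum.inl x) = true} ⊆
        ⋃ n : ℕ, q '' {x : X | (u n).1 (Sum.inl x) = true} := by
      rintro _ ⟨x, hx, rfl⟩
      have h2 : Tendsto (fun n => (u n).1 (Sum.inl x)) atTop (𝓝 (f.1 (Sum.inl x))) :=
        (((continuous_apply (Sum.inl x)).comp continuous_subtype_val).tendsto f).comp hf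
      rw [show f.1 (Sum.inl x) = true from hx, nhds_discrete, tendsto_pure] at h2
      obtain ⟨n, hn⟩ := h2.exists
      exact mem_iUnion.2 ⟨n, ⟨x, hn, rfl⟩⟩
    exact (countable_iUnion fun n => hu n).mono h1
  have hAc : IsClosed A := hA.isClosed
  let f₀ : CpD (X ⊕ Y) := ⟨Sum.elim (fun _ => true) (fun _ => false),
    continuous_const.sumElim continuous_const⟩
  have hf₀ : f₀ ∈ closure A := by
    rw [mem_closure_iff_nhds]
    intro U hU
    obtain ⟨I, hI⟩ := cpd_nhds f₀ hU
    classical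
    let T : Set Q := q '' {x : X | Sum.inl x ∈ I}
    have hT : T.Finite := by
      apply Set.Finite.image
      exact (I.finite_toSet.preimage Sum.inl_injective.injOn)
    let h : X → Bool := fun x => decide (q x ∈ T)
    have hh : Continuous h := continuous_of_fibres q hq h (by
      intro z y hzy
      simp only [h, hzy])
    refine ⟨⟨Sum.elim h (fun _ => false), hh.sumElim continuous_const⟩, hI _ ?_, ?_⟩
    · intro x hx
      rcases x with x | y
      · show h x = true
        exact decide_eq_true ⟨x, hx, rfl⟩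
      · rfl
    · show (q '' {x : X | h x = true}).Countable
      apply (hT.countable).mono
      rintro _ ⟨x, hx, rfl⟩
      exact of_decide_eq_true hx
  rw [hAc.closure_eq] at hf₀
  apply hr
  have h2 : (q '' {x : X | f₀.1 (Sum.inl x) = true}).Countable := hf₀
  have h3 : {x : X | f₀.1 (Sum.inl x) = true} = univ := by
    ext d; simp [f₀]
  rwa [h3, image_univ] at h2

end Pool.Agent.Helper56.Cp
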