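import Pool.Agent.Helper56.Cp.Basic

set_option autoImplicit false

open Set Filter Topology

namespace Pool.Agent.Helper56.Cp

universe u

variable {X : Type u} [TopologicalSpace X]

/-- every point has a metric fan away from it -/
def HasFans (X : Type u) [TopologicalSpace X] : Prop :=
  ∀ x₀ : X, ∃ W : ℕ → Set X, (∀ k, IsClopen (W k)) ∧ (∀ k, W (k + 1) ⊆ W k) ∧ x₀ ∉ W 0 ∧
    ¬ IsOpen (⋂ k, W k)

/-- merging countably many sequences of finite partial functions -/
theorem merge (a : ℕ → ℕ → ℕ) (τ : ℕ → ℕ → List ℕ) (ha : ∀ k i, i ≤ a k i) :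
    ∃ ρ : ℕ → ℕ, ∀ k N, ∃ i ≥ N, ∀ r < (τ k i).length, ρ (a k i + r) = (τ k i).getD r 0 := by
  classical
  -- bounds
  let B : ℕ → ℕ := fun t => Nat.rec 0 (fun t b =>
    a (Nat.unpair t).1 (max t b) + (τ (Nat.unpair t).1 (max t b)).length + 1) t
  have hB : ∀ t, B (t + 1) = a (Nat.unpair t).1 (max t (B t)) +
    (τ (Nat.unpair t).1 (max t (B t))).length + 1 := fun t => rfl
  let A : ℕ → ℕ := fun t => a (Nat.unpair t).1 (max t (B t))
  let L : ℕ → ℕ := fun t => (τ (Nat.unpair t).1 (max t (B t))).length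
  have hBA : ∀ t, B t ≤ A t := fun t => (le_max_right _ _).trans (ha _ _)
  have hAB : ∀ t, A t + L t < B (t + 1) := fun t => by rw [hB]; exact Nat.lt_succ_self _
  have hBm : Monotone B := monotone_nat_of_le_succ fun t => by
    have := hBA t
    have := hAB t
    omega
  have huniq : ∀ t t' r r', r < L t → r' < L t' → A t + r = A t' + r' → t = t' := by
    have key : ∀ t t' r r', r < L t → r' < L t' → A t + r = A t' + r' → ¬ t < t' := by
      intro t t' r r' hr hr' h hlt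
      have h1 := hAB t
      have h2 := hBm (show t + 1 ≤ t' from hlt)
      have h3 := hBA t'
      omega
    intro t t' r r' hr hr' h
    rcases lt_trichotomy t t' with h1 | h1 | h1
    · exact absurd h1 (key t t' r r' hr hr' h)
    · exact h1
    · exact absurd h1 (key t' t r' r hr' hr h.symm)
  have hex : ∀ m, ∃ v, ∀ t r, r < L t → m = A t + r →
      v = (τ (Nat.unpair t).1 (max t (B t))).getD r 0 := by
    intro m
    by_cases h : ∃ t r, r < L t ∧ m = A t + r
    · obtain ⟨t, r, hr, hm⟩ := h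
      refine ⟨(τ (Nat.unpair t).1 (max t (B t))).getD r 0, fun t' r' hr' hm' => ?_⟩
      have h1 : t = t' := huniq _ _ _ _ hr hr' (hm.symm.trans hm')
      subst h1
      have h2 : r = r' := by omega
      subst h2
      rfl
    · exact ⟨0, fun t r hr hm => (h ⟨t, r, hr, hm⟩).elim⟩
  choose ρ hρ using hex
  refine ⟨ρ, fun k N => ?_⟩
  set t := Nat.pair k N with ht
  have hk : (Nat.unpair t).1 = k := by rw [ht, Nat.unpair_pair]
  refine ⟨max t (B t), (Nat.right_le_pair k N).trans (le_max_left _ _), fun r hr => ?_⟩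
  have h1 := hρ (a k (max t (B t)) + r) t r (by
    show r < (τ (Nat.unpair t).1 (max t (B t))).length
    rw [hk]; exact hr) (by
    show a k (max t (B t)) + r = a (Nat.unpair t).1 (max t (B t)) + r
    rw [hk])
  rw [h1, hk]

theorem rothberger [SequentialSpace (CpD X)] (hF : HasFans X) (𝒲 : ℕ → ℕ → Set X)
    (hc : ∀ m i, IsClopen (𝒲 m i)) (hcov : ∀ m x, ∃ i, x ∈ 𝒲 m i) :
    ∃ ρ : ℕ → ℕ, ∀ x, ∃ m, x ∈ 𝒲 m (ρ m) := by
  classical
  rcases isEmpty_or_nonempty X with hX | hX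
  · exact ⟨fun _ => 0, fun x => (hX.false x).elim⟩
  obtain ⟨dec, hdec⟩ := exists_surjective_nat (List ℕ)
  let U : ℕ → List ℕ → Set X := fun l τ => ⋃ r ∈ Finset.range τ.length, 𝒲 (l + r) (τ.getD r 0)
  have hU : ∀ l τ, IsClopen (U l τ) := fun l τ =>
    Set.Finite.isClopen_biUnion (Finset.finite_toSet _) fun r _ => hc _ _
  have hUmem : ∀ l τ x, x ∈ U l τ ↔ ∃ r < τ.length, x ∈ 𝒲 (l + r) (τ.getD r 0) := by
    intro l τ x
    simp only [U, mem_iUnion, Finset.mem_range, exists_prop]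
  let H : ℕ → ℕ → CpD X := fun l j => chi (U l (dec j))ᶜ (hU l (dec j)).compl
  have hH : ∀ l, zro ∈ closure (range (H l)) := by
    intro l
    rw [mem_closure_iff_finset]
    intro F
    obtain ⟨τ, hτ⟩ : ∃ τ : List ℕ, ∀ y ∈ F, y ∈ U l τ := by
      induction F using Finset.induction_on with
      | empty => exact ⟨[], by simp⟩
      | insert y F _ ih =>
        obtain ⟨τ, hτ⟩ := ih
        obtain ⟨i, hi⟩ := hcov (l + τ.length) y
        refine ⟨τ ++ [i], fun z hz => ?_⟩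
        rcases Finset.mem_insert.1 hz with rfl | hz
        · rw [hUmem]
          refine ⟨τ.length, by simp, ?_⟩
          have : (τ ++ [i]).getD τ.length 0 = i := by simp
          rw [this]; exact hi
        · have := hτ z hz
          rw [hUmem] at this ⊢
          obtain ⟨r, hr, hr2⟩ := this
          refine ⟨r, by simp; omega, ?_⟩
          have : (τ ++ [i]).getD r 0 = τ.getD r 0 := List.getD_append _ _ _ _ hr
          rw [this]; exact hr2
    obtain ⟨j, hj⟩ := hdec τ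
    refine ⟨H l j, ⟨j, rfl⟩, fun y hy => ?_⟩
    show (chi (U l (dec j))ᶜ (hU l (dec j)).compl).1 y = false
    rw [chi_false, notMem_compl_iff, hj]
    exact hτ y hy
  obtain ⟨E, hE1, hE2⟩ := lindelof (X := X) (fun E => ∃ (l : ℕ → ℕ) (τ : ℕ → List ℕ),
    StrictMono l ∧ ∀ y ∈ E, ∀ᶠ i in atTop, y ∈ U (l i) (τ i)) (by
      intro x
      obtain ⟨W, hW1, hW2, hW3, hW4⟩ := hF x
      obtain ⟨E, hE1, hE2, l, j, hl, hlj⟩ := transversal hW1 hW2 hW3 hW4 H hH
      refine ⟨E, hE1, hE2, l, fun i => dec (j i), hl, fun y hy => ?_⟩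
      filter_upwards [hlj y hy] with i hi
      have hi' : (chi (U (l i) (dec (j i)))ᶜ (hU (l i) (dec (j i))).compl).1 y = false := hi
      rw [chi_false, notMem_compl_iff] at hi'
      exact hi')
  choose hE3 l τ hl hτ using hE1
  obtain ⟨ρ, hρ⟩ := merge l τ (fun k i => (hl k).id_le i)
  refine ⟨ρ, fun x => ?_⟩
  obtain ⟨k, hk⟩ := hE2 x
  obtain ⟨N, hN⟩ := eventually_atTop.1 (hτ k x hk)
  obtain ⟨i, hi, hi2⟩ := hρ k N
  obtain ⟨r, hr, hr2⟩ := (hUmem _ _ _).1 (hN i hi)
  refine ⟨l k i + r, ?_⟩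
  rw [hi2 r hr]
  exact hr2

theorem menger [SequentialSpace (CpD X)] (hF : HasFans X) (V : ℕ → ℕ → Set X)
    (hc : ∀ k n, IsClopen (V k n)) (hcov : ∀ k x, ∃ n, x ∈ V k n)
    (hmono : ∀ k, Monotone (V k)) : ∃ f : ℕ → ℕ, ∀ x N, ∃ k ≥ N, x ∈ V k (f k) := by
  have h : ∀ N, ∃ ρ : ℕ → ℕ, ∀ x, ∃ m, x ∈ V (N + m) (ρ m) := fun N =>
    rothberger hF (fun m i => V (N + m) i) (fun m i => hc _ _) (fun m x => hcov _ _)
  choose ρ hρ using h
  refine ⟨fun k => (Finset.range (k + 1)).sup fun N => ρ N (k - N), fun x N => ?_⟩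
  obtain ⟨m, hm⟩ := hρ N x
  refine ⟨N + m, Nat.le_add_right _ _, ?_⟩
  apply hmono (N + m) _ hm
  have h1 : ρ N (N + m - N) ≤ (Finset.range (N + m + 1)).sup fun N' => ρ N' (N + m - N') :=
    Finset.le_sup (f := fun N' => ρ N' (N + m - N')) (Finset.mem_range.2 (by omega))
  rwa [Nat.add_sub_cancel_left] at h1

end Pool.Agent.Helper56.Cp
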